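import Pool.Agent.Q240.GW.Process

set_option autoImplicit false

namespace Pool.Agent.Q240.GW

open Filter Topology MeasureTheory
open scoped ENNReal

variable {a : ℤ} {b : Bool} {p : ℕ → ℤ × Bool} {t : ℕ}

open Classical in
/-- weights of the three moves -/
noncomputable def wt (s : St) (f : ℝ) : ℝ := if s.full then 1 / 3 else f / (s.fr + s.fl + s.fc)

lemma avg_eq (s : St) (f : St → ℝ) :
    avg s f = wt s s.fr * f s.r + wt s s.fl * f s.l + wt s s.fc * f s.c := by
  unfold avg wt
  split_ifs <;> ring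

lemma wt_nonneg (s : St) {f : ℝ} (hf : 0 ≤ f) : 0 ≤ wt s f := by
  unfold wt
  split_ifs with h
  · norm_num
  · exact div_nonneg hf (tot_pos h).le

open Classical in
/-- unvisited neighbour -/
def unv (p : ℕ → ℤ × Bool) (t : ℕ) (y : ℤ × Bool) : Prop := ∀ r < t, s(p r, p (r + 1)) ≠ s(p t, y)

lemma unv_iff (y : ℤ × Bool) : unv p t y ↔ ¬ ∃ r < t, s(p r, p (r + 1)) = s(p t, y) := by
  unfold unv
  push Not
  rfl

lemma yr_ne_yl (v : ℤ × Bool) : yr v ≠ yl v := by
  intro h
  have : v.1 + 1 = v.1 - 1 := congrArg Prod.fst h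
  omega

lemma yr_ne_yc (v : ℤ × Bool) : yr v ≠ yc v := by
  intro h
  have : v.1 + 1 = v.1 := congrArg Prod.fst h
  omega

lemma yl_ne_yc (v : ℤ × Bool) : yl v ≠ yc v := by
  intro h
  have : v.1 - 1 = v.1 := congrArg Prod.fst h
  omega

open Classical in
/-- fresh neighbours as a finite set -/
noncomputable def ff (p : ℕ → ℤ × Bool) (t : ℕ) : Finset (ℤ × Bool) :=
  ({yr (p t), yl (p t), yc (p t)} : Finset (ℤ × Bool)).filter (unv p t)

lemma fresh_eq : fresh ladder p t = ↑(ff p t) := by
  ext y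
  unfold ff
  simp only [Finset.coe_filter, Finset.mem_insert, Finset.mem_singleton, Set.mem_ofPred_eq]
  show ladder.Adj (p t) y ∧ _ ↔ _
  rw [adj_iff]
  rfl

lemma ff_card (a : ℤ) (b : Bool) :
    ((ff p t).card : ℝ) = (st a b p t).fr + (st a b p t).fl + (st a b p t).fc := by
  classical
  unfold ff
  rw [Finset.card_filter, Finset.sum_insert, Finset.sum_insert, Finset.sum_singleton]
  · push_cast
    rw [add_assoc]
    unfold St.fr St.fl St.fc
    congr 1
    · by_cases h : (st a b p t).rail (st a b p t).x (st a b p t).i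
      · rw [if_neg, if_pos h]
        rw [unv_iff, not_not]; exact rail_iff.mp h
      · rw [if_pos, if_neg h]
        rw [unv_iff]; exact fun h2 => h (rail_iff.mpr h2)
    · congr 1
      · by_cases h : (st a b p t).rail ((st a b p t).x - 1) (st a b p t).i
        · rw [if_neg, if_pos h]
          rw [unv_iff, not_not]; exact rail_iff'.mp h
        · rw [if_pos, if_neg h]
          rw [unv_iff]; exact fun h2 => h (rail_iff'.mpr h2)
      · by_cases h : (st a b p t).rung (st a b p t).x
        · rw [if_neg, if_pos h]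
          rw [unv_iff, not_not]; exact rung_iff.mp h
        · rw [if_pos, if_neg h]
          rw [unv_iff]; exact fun h2 => h (rung_iff.mpr h2)
  · simpa using yl_ne_yc _
  · simp only [Finset.mem_insert, Finset.mem_singleton, not_or]
    exact ⟨yr_ne_yl _, yr_ne_yc _⟩

lemma full_iff (a : ℤ) (b : Bool) : (st a b p t).full ↔ ¬ (fresh ladder p t).Nonempty := by
  rw [fresh_eq, Finset.coe_nonempty, Finset.not_nonempty_iff_eq_empty, ← Finset.card_eq_zero]
  constructor
  · intro h
    have h1 := ff_card (p := p) (t := t) a b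
    have e1 : (st a b p t).fr = 0 := by unfold St.fr; rw [if_pos h.1]
    have e2 : (st a b p t).fl = 0 := by unfold St.fl; rw [if_pos h.2.1]
    have e3 : (st a b p t).fc = 0 := by unfold St.fc; rw [if_pos h.2.2]
    rw [e1, e2, e3] at h1
    have : ((ff p t).card : ℝ) = 0 := by linarith
    exact_mod_cast this
  · intro h
    by_contra hf
    have h1 := ff_card (p := p) (t := t) a b
    have h2 := tot_pos hf
    rw [← h1, h] at h2
    simp at h2

lemma nbr_eq : ladder.neighborSet (p t) =
    ↑(({yr (p t), yl (p t), yc (p t)} : Finset (ℤ × Bool))) := by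
  ext y
  simp only [Finset.coe_insert, Finset.coe_singleton, Set.mem_insert_iff, Set.mem_singleton_iff]
  exact adj_iff _ _

lemma nbr_card : (ladder.neighborSet (p t)).ncard = 3 := by
  rw [nbr_eq, Set.ncard_coe_finset, Finset.card_insert_of_notMem, Finset.card_insert_of_notMem,
    Finset.card_singleton]
  · simpa using yl_ne_yc _
  · simp only [Finset.mem_insert, Finset.mem_singleton, not_or]
    exact ⟨yr_ne_yl _, yr_ne_yc _⟩

/-- the transition probabilities in the coordinates of the state -/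
lemma unif_eq (a : ℤ) (b : Bool) (y : ℤ × Bool) (hy : ladder.Adj (p t) y) {f : ℝ}
    (hf : ¬ (st a b p t).full → (unv p t y → f = 1) ∧ (¬ unv p t y → f = 0)) :
    unif (options ladder p t) y = ENNReal.ofReal (wt (st a b p t) f) := by
  unfold unif options wt
  by_cases h : (st a b p t).full
  · have h' := (full_iff a b).mp h
    rw [if_pos h, if_neg h', if_pos (show y ∈ ladder.neighborSet (p t) from hy), nbr_card]
    rw [one_div, ENNReal.ofReal_inv_of_pos (by norm_num)]
    norm_num
  · have h' : (fresh ladder p t).Nonempty := by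
      by_contra h2
      exact h ((full_iff a b).mpr h2)
    rw [if_neg h, if_pos h']
    by_cases hu : unv p t y
    · have hm : y ∈ fresh ladder p t := ⟨hy, hu⟩
      rw [if_pos hm, (hf h).1 hu, ← ff_card a b, fresh_eq, Set.ncard_coe_finset, one_div,
        ENNReal.ofReal_inv_of_pos, ENNReal.ofReal_natCast]
      rw [fresh_eq] at hm
      exact_mod_cast Finset.card_pos.mpr ⟨y, hm⟩
    · have hm : y ∉ fresh ladder p t := fun h2 => hu h2.2
      rw [if_neg hm, (hf h).2 hu]
      simp

lemma unif_r (a : ℤ) (b : Bool) : unif (options ladder p t) (yr (p t)) =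
    ENNReal.ofReal (wt (st a b p t) (st a b p t).fr) := by
  refine unif_eq a b _ ((adj_iff _ _).mpr (Or.inl rfl)) fun _ => ⟨fun hu => ?_, fun hu => ?_⟩
  · unfold St.fr
    rw [if_neg]
    rw [rail_iff]
    exact (unv_iff _).mp hu
  · unfold St.fr
    rw [if_pos]
    rw [rail_iff]
    rw [unv_iff, not_not] at hu
    exact hu

lemma unif_l (a : ℤ) (b : Bool) : unif (options ladder p t) (yl (p t)) =
    ENNReal.ofReal (wt (st a b p t) (st a b p t).fl) := by
  refine unif_eq a b _ ((adj_iff _ _).mpr (Or.inr (Or.inl rfl))) fun _ =>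
    ⟨fun hu => ?_, fun hu => ?_⟩
  · unfold St.fl
    rw [if_neg]
    rw [rail_iff']
    exact (unv_iff _).mp hu
  · unfold St.fl
    rw [if_pos]
    rw [rail_iff']
    rw [unv_iff, not_not] at hu
    exact hu

lemma unif_c (a : ℤ) (b : Bool) : unif (options ladder p t) (yc (p t)) =
    ENNReal.ofReal (wt (st a b p t) (st a b p t).fc) := by
  refine unif_eq a b _ ((adj_iff _ _).mpr (Or.inr (Or.inr rfl))) fun _ =>
    ⟨fun hu => ?_, fun hu => ?_⟩
  · unfold St.fc
    rw [if_neg]
    rw [rung_iff]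
    exact (unv_iff _).mp hu
  · unfold St.fc
    rw [if_pos]
    rw [rung_iff]
    rw [unv_iff, not_not] at hu
    exact hu

lemma unif_zero {y : ℤ × Bool} (hy : ¬ ladder.Adj (p t) y) : unif (options ladder p t) y = 0 := by
  unfold unif
  rw [if_neg]
  unfold options
  split_ifs
  · exact fun h => hy h.1
  · exact hy

lemma org_st {p' : ℕ → ℤ × Bool} {t' : ℕ} : org (st a b p' t') ↔ p' t' = (a, b) := by
  show (p' t').1 - a = 0 ∧ xor (p' t').2 b = false ↔ _
  rcases p' t' with ⟨n, i⟩
  simp only [Prod.mk.injEq]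
  cases i <;> cases b <;> simp <;> omega

variable {Ω : Type*} [MeasurableSpace Ω] {μ : Measure Ω} {X : ℕ → Ω → ℤ × Bool}

/-- the trajectory follows `p` up to time `t` and avoids `(a, b)` at the next `n` times -/
def ev (X : ℕ → Ω → ℤ × Bool) (a : ℤ) (b : Bool) (p : ℕ → ℤ × Bool) (t n : ℕ) : Set Ω :=
  {ω | (∀ r ≤ t, X r ω = p r) ∧ ∀ r, t < r → r ≤ t + n → X r ω ≠ (a, b)}

theorem ev_le {o : ℤ × Bool} (hX : IsGreedyWalk ladder o μ X) (n : ℕ) :
    ∀ (p : ℕ → ℤ × Bool) (t : ℕ),
      μ (ev X a b p t n) ≤ μ {ω | ∀ r ≤ t, X r ω = p r} * ENNReal.ofReal (nohit n (st a b p t)) := by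
  induction n with
  | zero =>
    intro p t
    have : nohit 0 (st a b p t) = 1 := rfl
    rw [this, ENNReal.ofReal_one, mul_one]
    exact measure_mono fun ω h => h.1
  | succ n ih =>
    intro p t
    set M := μ {ω | ∀ r ≤ t, X r ω = p r} with hM
    -- one successor
    have one : ∀ (y : ℤ × Bool) (s' : St) (w : ℝ), 0 ≤ w →
        (∀ p' : ℕ → ℤ × Bool, (∀ r ≤ t, p' r = p r) → p' (t + 1) = y → st a b p' (t + 1) = s') →
        unif (options ladder p t) y = ENNReal.ofReal w →
        μ (ev X a b p t (n + 1) ∩ {ω | X (t + 1) ω = y}) ≤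
          M * ENNReal.ofReal (w * kill (nohit n) s') := by
      intro y s' w hw hs' hu
      set p' : ℕ → ℤ × Bool := Function.update p (t + 1) y with hp'
      have h1 : ∀ r ≤ t, p' r = p r := fun r hr => by
        rw [hp', Function.update_of_ne (by omega)]
      have h2 : p' (t + 1) = y := by rw [hp', Function.update_self]
      have h3 := hs' p' h1 h2
      by_cases ho : org s'
      · have : ev X a b p t (n + 1) ∩ {ω | X (t + 1) ω = y} = ∅ := by
          ext ω
          simp only [Set.mem_inter_iff, Set.mem_empty_iff_false, iff_false, not_and]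
          intro hω hy
          rw [← h3, org_st, h2] at ho
          exact hω.2 (t + 1) (by omega) (by omega) (hy.trans ho)
        rw [this, measure_empty]
        exact zero_le
      · have hk : kill (nohit n) s' = nohit n s' := by unfold kill; rw [if_neg ho]
        rw [hk, ENNReal.ofReal_mul hw, ← hu, ← mul_assoc, mul_comm M]
        have hst := hX.step p t y
        have hH : {ω | ∀ r ≤ t + 1, X r ω = p' r} = {ω | (∀ r ≤ t, X r ω = p r) ∧ X (t + 1) ω = y} := by
          ext ω
          constructor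
          · intro h
            exact ⟨fun r hr => by rw [← h1 r hr]; exact h r (by omega),
              by rw [← h2]; exact h (t + 1) le_rfl⟩
          · rintro ⟨h4, h5⟩ r hr
            rcases Nat.le_succ_iff.mp hr with hr | rfl
            · rw [h1 r hr]; exact h4 r hr
            · rw [h2]; exact h5
        rw [← hst, ← hH, ← h3]
        refine le_trans (measure_mono ?_) (ih p' (t + 1))
        rintro ω ⟨hω, hy⟩
        refine ⟨fun r hr => ?_, fun r hr1 hr2 => hω.2 r (by omega) (by omega)⟩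
        rcases Nat.le_succ_iff.mp hr with hr | rfl
        · rw [h1 r hr]; exact hω.1 r hr
        · rw [h2]; exact hy
    have nr := one (yr (p t)) _ _ (wt_nonneg _ (fr_nonneg _)) (fun p' h1 h2 => st_r h1 h2) (unif_r a b)
    have nl := one (yl (p t)) _ _ (wt_nonneg _ (fl_nonneg _)) (fun p' h1 h2 => st_l h1 h2) (unif_l a b)
    have nc := one (yc (p t)) _ _ (wt_nonneg _ (fc_nonneg _)) (fun p' h1 h2 => st_c h1 h2) (unif_c a b)
    set N : Set Ω := ⋃ y : ℤ × Bool, {ω | ¬ ladder.Adj (p t) y ∧ (∀ r ≤ t, X r ω = p r) ∧ X (t + 1) ω = y}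
      with hN
    have hN0 : μ N = 0 := by
      rw [hN]
      refine measure_iUnion_null fun y => ?_
      by_cases hy : ladder.Adj (p t) y
      · simp [hy]
      · have := hX.step p t y
        rw [unif_zero hy, zero_mul] at this
        simpa [hy] using this
    have hcov : ev X a b p t (n + 1) ⊆
        ((ev X a b p t (n + 1) ∩ {ω | X (t + 1) ω = yr (p t)}) ∪
          (ev X a b p t (n + 1) ∩ {ω | X (t + 1) ω = yl (p t)})) ∪
          (ev X a b p t (n + 1) ∩ {ω | X (t + 1) ω = yc (p t)}) ∪ N := by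
      intro ω hω
      by_cases hy : ladder.Adj (p t) (X (t + 1) ω)
      · left
        rcases (adj_iff _ _).mp hy with h | h | h
        · exact Or.inl (Or.inl ⟨hω, h⟩)
        · exact Or.inl (Or.inr ⟨hω, h⟩)
        · exact Or.inr ⟨hω, h⟩
      · right
        exact Set.mem_iUnion.mpr ⟨X (t + 1) ω, hy, hω.1, rfl⟩
    have hnn : ∀ t', 0 ≤ kill (nohit n) t' := fun t' => kill_nonneg (nohit_nonneg n t')
    calc μ (ev X a b p t (n + 1)) ≤ _ := measure_mono hcov
      _ ≤ μ (((ev X a b p t (n + 1) ∩ {ω | X (t + 1) ω = yr (p t)}) ∪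
          (ev X a b p t (n + 1) ∩ {ω | X (t + 1) ω = yl (p t)})) ∪
          (ev X a b p t (n + 1) ∩ {ω | X (t + 1) ω = yc (p t)})) + μ N := measure_union_le _ _
      _ ≤ (μ (ev X a b p t (n + 1) ∩ {ω | X (t + 1) ω = yr (p t)}) +
          μ (ev X a b p t (n + 1) ∩ {ω | X (t + 1) ω = yl (p t)})) +
          μ (ev X a b p t (n + 1) ∩ {ω | X (t + 1) ω = yc (p t)}) := by
        rw [hN0, add_zero]
        exact (measure_union_le _ _).trans (by gcongr; exact measure_union_le _ _)
      _ ≤ M * ENNReal.ofReal (nohit (n + 1) (st a b p t)) := by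
        refine (add_le_add (add_le_add nr nl) nc).trans ?_
        rw [← mul_add, ← mul_add, ← ENNReal.ofReal_add, ← ENNReal.ofReal_add]
        · refine le_of_eq ?_
          congr 2
          exact (avg_eq _ _).symm
        · exact add_nonneg (mul_nonneg (wt_nonneg _ (fr_nonneg _)) (hnn _))
            (mul_nonneg (wt_nonneg _ (fl_nonneg _)) (hnn _))
        · exact mul_nonneg (wt_nonneg _ (fc_nonneg _)) (hnn _)
        · exact mul_nonneg (wt_nonneg _ (fr_nonneg _)) (hnn _)
        · exact mul_nonneg (wt_nonneg _ (fl_nonneg _)) (hnn _)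

/-- the state of a trajectory has finitely many visited edges -/
lemma st_base (a : ℤ) (b : Bool) (p : ℕ → ℤ × Bool) (t : ℕ) :
    ∃ L : ℤ, 0 ≤ L ∧ Base L (st a b p t) ∧ Base L (refl (st a b p t)) := by
  obtain ⟨K, hK⟩ : ∃ K : ℤ, ∀ r ≤ t, |(p r).1 - a| ≤ K := by
    induction t with
    | zero => exact ⟨|(p 0).1 - a|, fun r hr => by rw [Nat.le_zero.mp hr]⟩
    | succ t ih =>
      obtain ⟨K, hK⟩ := ih
      refine ⟨max K |(p (t + 1)).1 - a|, fun r hr => ?_⟩
      rcases Nat.le_succ_iff.mp hr with hr | rfl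
      · exact (hK r hr).trans (le_max_left _ _)
      · exact le_max_right _ _
  have h0 : 0 ≤ K := (abs_nonneg _).trans (hK 0 (Nat.zero_le _))
  have mem : ∀ {r : ℕ} {u v : ℤ × Bool}, r < t → s(p r, p (r + 1)) = s(u, v) →
      (|u.1 - a| ≤ K ∧ |v.1 - a| ≤ K) := by
    intro r u v hr h
    have h1 := hK r (by omega)
    have h2 := hK (r + 1) (by omega)
    rw [Sym2.eq_iff] at h
    rcases h with ⟨h3, h4⟩ | ⟨h3, h4⟩
    · rw [h3] at h1; rw [h4] at h2; exact ⟨h1, h2⟩
    · rw [h3] at h1; rw [h4] at h2; exact ⟨h2, h1⟩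
  have hp := abs_le.mp (hK t le_rfl)
  refine ⟨K, h0, ⟨?_, fun m j hm => ?_, fun c hc => ?_⟩, ⟨?_, fun m j hm => ?_, fun c hc => ?_⟩⟩
  · show (p t).1 - a ≤ K
    omega
  · rintro ⟨r, hr, h⟩
    have := abs_le.mp (mem hr h).2
    simp only at this
    omega
  · rintro ⟨r, hr, h⟩
    have := abs_le.mp (mem hr h).2
    simp only at this
    omega
  · show -((p t).1 - a) ≤ K
    omega
  · rintro ⟨r, hr, h⟩
    have := abs_le.mp (mem hr h).1
    simp only at this
    omega
  · rintro ⟨r, hr, h⟩
    have := abs_le.mp (mem hr h).1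
    simp only at this
    omega

/-- the greedy random walk on the ladder visits every vertex infinitely often -/
theorem recurrent [IsProbabilityMeasure μ] {o : ℤ × Bool} (hX : IsGreedyWalk ladder o μ X)
    (v : ℤ × Bool) : ∀ᵐ ω ∂μ, ∃ᶠ t in atTop, X t ω = v := by
  obtain ⟨a, b⟩ := v
  have h1 : ∀ T : ℕ, μ {ω | ∀ r, T < r → X r ω ≠ (a, b)} = 0 := by
    intro T
    have hcov : {ω | ∀ r, T < r → X r ω ≠ (a, b)} ⊆
        ⋃ q : Fin (T + 1) → ℤ × Bool, {ω | (∀ r : Fin (T + 1), X r ω = q r) ∧
          ∀ r, T < r → X r ω ≠ (a, b)} := by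
      intro ω hω
      exact Set.mem_iUnion.mpr ⟨fun r => X r ω, fun _ => rfl, hω⟩
    refine measure_mono_null hcov (measure_iUnion_null fun q => ?_)
    set p : ℕ → ℤ × Bool := fun r => if h : r < T + 1 then q ⟨r, h⟩ else (0, false) with hp
    obtain ⟨L, hL, hB, hB'⟩ := st_base a b p T
    have hlim := nohit_tendsto' hL hB hB'
    have hle : ∀ n, μ {ω | (∀ r : Fin (T + 1), X r ω = q r) ∧ ∀ r, T < r → X r ω ≠ (a, b)} ≤
        ENNReal.ofReal (nohit n (st a b p T)) := by
      intro n
      refine le_trans (measure_mono ?_) ((ev_le (a := a) (b := b) hX n p T).trans ?_)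
      · rintro ω ⟨h2, h3⟩
        refine ⟨fun r hr => ?_, fun r hr _ => h3 r hr⟩
        rw [hp]
        simp only [dif_pos (Nat.lt_succ_of_le hr)]
        exact h2 ⟨r, Nat.lt_succ_of_le hr⟩
      · calc μ {ω | ∀ r ≤ T, X r ω = p r} * ENNReal.ofReal (nohit n (st a b p T)) ≤
            1 * ENNReal.ofReal (nohit n (st a b p T)) := by gcongr; exact prob_le_one
          _ = _ := one_mul _
    have hz : Tendsto (fun n => ENNReal.ofReal (nohit n (st a b p T))) atTop (𝓝 0) := by
      have := ENNReal.tendsto_ofReal hlim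
      rwa [ENNReal.ofReal_zero] at this
    exact le_antisymm (ge_of_tendsto' hz hle) zero_le
  have h2 : ∀ᵐ ω ∂μ, ∀ T : ℕ, ¬ ∀ r, T < r → X r ω ≠ (a, b) := by
    rw [ae_all_iff]
    intro T
    rw [ae_iff]
    simpa using h1 T
  filter_upwards [h2] with ω hω
  rw [frequently_atTop]
  intro T
  have := hω T
  push Not at this
  obtain ⟨r, hr, h3⟩ := this
  exact ⟨r, hr.le, h3⟩

end Pool.Agent.Q240.GW
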