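import Pool.Agent.Q240.GW.Inv

set_option autoImplicit false

namespace Pool.Agent.Q240.GW

variable {L m : ℤ} {s : St}

lemma G_eq' (m : ℤ) (s : St) : G m s = Gv (s.rail m s.i) (s.rail m (!s.i)) (h m s) := by
  unfold G
  cases s.i
  · rw [Gv_comm]; rfl
  · rfl

lemma G_r (m : ℤ) (s : St) :
    G m s.r = Gv (s.rail m s.i ∨ m = s.x) (s.rail m (!s.i)) (h m s.r) := by
  rw [G_eq']
  have e1 : s.r.rail m s.r.i ↔ (s.rail m s.i ∨ m = s.x) := by
    show (s.rail m s.i ∨ (m = s.x ∧ s.i = s.i)) ↔ _
    simp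
  have e2 : s.r.rail m (!s.r.i) ↔ s.rail m (!s.i) := by
    show (s.rail m (!s.i) ∨ (m = s.x ∧ (!s.i) = s.i)) ↔ _
    simp
  exact Gv_congr e1 e2 _

lemma G_l (m : ℤ) (s : St) :
    G m s.l = Gv (s.rail m s.i ∨ m = s.x - 1) (s.rail m (!s.i)) (h m s.l) := by
  rw [G_eq']
  have e1 : s.l.rail m s.l.i ↔ (s.rail m s.i ∨ m = s.x - 1) := by
    show (s.rail m s.i ∨ (m = s.x - 1 ∧ s.i = s.i)) ↔ _
    simp
  have e2 : s.l.rail m (!s.l.i) ↔ s.rail m (!s.i) := by
    show (s.rail m (!s.i) ∨ (m = s.x - 1 ∧ (!s.i) = s.i)) ↔ _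
    simp
  exact Gv_congr e1 e2 _

lemma G_c (m : ℤ) (s : St) :
    G m s.c = Gv (s.rail m s.i) (s.rail m (!s.i)) (h m s.c) := by
  rw [G_eq']
  show Gv (s.rail m (!s.i)) (s.rail m (!!s.i)) (h m s.c) = _
  rw [Bool.not_not, Gv_comm]

lemma h_le {m : ℤ} {s : St} (hx : s.x ≤ m) : h m s = 1 := by
  unfold h; rw [if_pos hx]

lemma h_far {m : ℤ} {s : St} (hx : m + 2 ≤ s.x) : h m s = 0 := by
  unfold h; rw [if_neg (by omega), if_neg (by omega)]

lemma h_le_one (m : ℤ) (s : St) : h m s ≤ 1 := by
  unfold h; split_ifs <;> norm_num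

lemma h_right {m : ℤ} {s : St} (hx : m + 1 ≤ s.x) : h m s ≤ 0 := by
  unfold h
  rw [if_neg (by omega)]
  split_ifs <;> norm_num

lemma h_ge (m : ℤ) (s : St) : -1 ≤ h m s := by
  unfold h; split_ifs <;> norm_num

open Classical in
lemma h_at {m : ℤ} {s : St} (hx : s.x = m + 1) : h m s =
    if s.rail m s.i then (if s.rung (m + 1) ∨ s.rail (m + 1) s.i then 0 else -1 / 4)
    else (if s.rung (m + 1) ∧ s.rail (m + 1) s.i then -1 else -1 / 2) := by
  unfold h; rw [if_neg (by omega), if_pos hx]

lemma Gv_none {p q : Prop} (hp : ¬ p) (hq : ¬ q) (v : ℝ) : Gv p q v = 0 := by simp [Gv, hp, hq]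
lemma Gv_both {p q : Prop} (hp : p) (hq : q) (v : ℝ) : Gv p q v = -3 / 4 := by simp [Gv, hp, hq]
lemma Gv_left {p q : Prop} (hp : p) (hq : ¬ q) (v : ℝ) : Gv p q v = -3 / 4 + v := by
  simp [Gv, hp, hq]
lemma Gv_right {p q : Prop} (hp : ¬ p) (hq : q) (v : ℝ) : Gv p q v = -3 / 4 + v := by
  simp [Gv, hp, hq]
lemma Gv_mono (p q : Prop) {v w : ℝ} (hv : v ≤ w) : Gv p q v ≤ Gv p q w := by
  unfold Gv; split_ifs <;> linarith

/-- one gap, when all three edges at the position are visited -/
lemma gap_full (hI : Inv L s) (hm : L ≤ m) (hf : s.full) :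
    (G m s.r + G m s.l + G m s.c) / 3 ≤ G m s := by
  obtain ⟨f1, f2, f3⟩ := hf
  have er : (s.rail m s.i ∨ m = s.x) ↔ s.rail m s.i :=
    ⟨fun hh => hh.elim id (fun e => e ▸ f1), Or.inl⟩
  have el : (s.rail m s.i ∨ m = s.x - 1) ↔ s.rail m s.i :=
    ⟨fun hh => hh.elim id (fun e => e ▸ f2), Or.inl⟩
  rw [G_r, G_l, G_c, G_eq']
  simp only [er, el]
  by_cases hp : s.rail m s.i <;> by_cases hq : s.rail m (!s.i)
  · simp only [Gv_both hp hq]; norm_num
  · simp only [Gv_left hp hq]
    rcases le_or_gt s.x m with hx | hx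
    · rw [h_le hx]
      linarith [h_le_one m s.r, h_le_one m s.l, h_le_one m s.c]
    · rcases eq_or_lt_of_le (Int.add_one_le_iff.mpr hx) with hx' | hx'
      · -- at the vertex v
        have e0 : h m s = 0 := by
          rw [h_at hx'.symm, if_pos hp, if_pos (Or.inl (hx' ▸ f3))]
        have e1 : h m s.r ≤ 0 := h_right (show m + 1 ≤ s.x + 1 by omega)
        have e2 : h m s.l ≤ 1 := h_le_one _ _
        have e3 : h m s.c = -1 := by
          have hx2 : s.c.x = m + 1 := hx'.symm
          rw [h_at hx2]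
          have hq' : ¬ s.c.rail m s.c.i := hq
          rw [if_neg hq', if_pos]
          refine ⟨Or.inl (hx' ▸ f3), ?_⟩
          show s.rail (m + 1) (!s.i)
          have := (hI.there (m + 1) (!s.i) (by omega) (fun h2 => by
            have h3 := h2.2
            cases hi : s.i
            · rw [hi] at h3; exact absurd h3 (by decide)
            · rw [hi] at h3; exact absurd h3 (by decide))).2.2 (hx' ▸ f3)
          rcases this with h1 | h1
          · rw [add_sub_cancel_right] at h1
            exact absurd h1 hq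
          · exact h1
        linarith
      · have e0 : h m s = 0 := h_far (by omega)
        have e1 : h m s.r ≤ 0 := h_right (show m + 1 ≤ s.x + 1 by omega)
        have e2 : h m s.l ≤ 0 := h_right (show m + 1 ≤ s.x - 1 by omega)
        have e3 : h m s.c ≤ 0 := h_right (show m + 1 ≤ s.x by omega)
        linarith
  · simp only [Gv_right hp hq]
    rcases le_or_gt s.x m with hx | hx
    · rw [h_le hx]
      linarith [h_le_one m s.r, h_le_one m s.l, h_le_one m s.c]
    · rcases eq_or_lt_of_le (Int.add_one_le_iff.mpr hx) with hx' | hx'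
      · exfalso
        apply hp
        have : m = s.x - 1 := by omega
        rw [this]; exact f2
      · have e0 : h m s = 0 := h_far (by omega)
        have e1 : h m s.r ≤ 0 := h_right (show m + 1 ≤ s.x + 1 by omega)
        have e2 : h m s.l ≤ 0 := h_right (show m + 1 ≤ s.x - 1 by omega)
        have e3 : h m s.c ≤ 0 := h_right (show m + 1 ≤ s.x by omega)
        linarith
  · simp only [Gv_none hp hq]; norm_num

lemma Gv_add (p q : Prop) (hpq : p ∨ q) (v w : ℝ) : Gv p q v - Gv p q w ≤ max 0 (v - w) := by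
  unfold Gv
  split_ifs with h1
  · simp
  · have : (-3 / 4 + v - (-3 / 4 + w) : ℝ) = v - w := by ring
    rw [this]
    exact le_max_right _ _

/-- one gap, when some edge at the position is fresh -/
lemma gap_part (hI : Inv L s) (hm : L ≤ m) :
    s.fr * (G m s.r - G m s + (if m = s.x then 1 else 0)) +
      s.fl * (G m s.l - G m s - (if m = s.x - 1 then 1 else 0)) + s.fc * (G m s.c - G m s) ≤ 0 := by
  have n1 := fr_nonneg s
  have n2 := fl_nonneg s
  have n3 := fc_nonneg s
  rw [G_r, G_l, G_c, G_eq']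
  rcases lt_trichotomy s.x m with hx | hx | hx
  · -- far left of the gap
    have e1 : h m s = 1 := h_le hx.le
    have e2 : h m s.r = 1 := h_le (show s.x + 1 ≤ m by omega)
    have e3 : h m s.l = 1 := h_le (show s.x - 1 ≤ m by omega)
    have e4 : h m s.c = 1 := h_le (show s.x ≤ m by omega)
    have c1 : (s.rail m s.i ∨ m = s.x) ↔ s.rail m s.i := ⟨fun hh => hh.elim id (by omega), Or.inl⟩
    have c2 : (s.rail m s.i ∨ m = s.x - 1) ↔ s.rail m s.i :=
      ⟨fun hh => hh.elim id (by omega), Or.inl⟩
    rw [e1, e2, e3, e4, Gv_congr c1 Iff.rfl, Gv_congr c2 Iff.rfl, if_neg (by omega),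
      if_neg (by omega)]
    simp
  · -- the gap to the right
    subst hx
    have e1 : h s.x s = 1 := h_le le_rfl
    have e3 : h s.x s.l = 1 := h_le (show s.x - 1 ≤ s.x by omega)
    have e4 : h s.x s.c = 1 := h_le (show s.x ≤ s.x by omega)
    have c2 : (s.rail s.x s.i ∨ s.x = s.x - 1) ↔ s.rail s.x s.i :=
      ⟨fun hh => hh.elim id (by omega), Or.inl⟩
    rw [e1, e3, e4, Gv_congr c2 Iff.rfl, if_pos rfl, if_neg (by omega)]
    by_cases hp : s.rail s.x s.i
    · have : s.fr = 0 := by unfold St.fr; rw [if_pos hp]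
      rw [this]; simp
    · by_cases hq : s.rail s.x (!s.i)
      · rw [Gv_both (Or.inr rfl) hq, Gv_right hp hq]
        have : (-3 / 4 - (-3 / 4 + 1) + 1 : ℝ) = 0 := by norm_num
        rw [this]; simp
      · have hfr : ¬ s.rail s.x true ∧ ¬ s.rail s.x false := by
          cases hi : s.i
          · rw [hi] at hp hq; exact ⟨hq, hp⟩
          · rw [hi] at hp hq; exact ⟨hp, hq⟩
        obtain ⟨-, g2, g3⟩ := hI.fresh s.x hm hfr.1 hfr.2
        have e2 : h s.x s.r = -1 / 4 := by
          have hx2 : s.r.x = s.x + 1 := rfl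
          rw [h_at hx2, if_pos, if_neg]
          · rintro (h1 | h1 | h1)
            · exact g3 h1
            · exact g2 _ h1
            · omega
          · exact Or.inr ⟨rfl, rfl⟩
        rw [e2, Gv_left (Or.inr rfl) hq, Gv_none hp hq]
        have : (-3 / 4 + -1 / 4 - 0 + 1 : ℝ) = 0 := by norm_num
        rw [this]; simp
  · rcases eq_or_lt_of_le (Int.add_one_le_iff.mpr hx) with hx' | hx'
    · -- the gap to the left
      have hx0 : s.x = m + 1 := hx'.symm
      have c1 : (s.rail m s.i ∨ m = s.x) ↔ s.rail m s.i := ⟨fun hh => hh.elim id (by omega), Or.inl⟩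
      have e2 : h m s.r = 0 := h_far (show m + 2 ≤ s.x + 1 by omega)
      have hxm : s.x - 1 = m := by omega
      rw [Gv_congr c1 Iff.rfl, e2, if_neg (by omega), if_pos (by omega)]
      by_cases hp : s.rail m s.i
      · have hfl : s.fl = 0 := by unfold St.fl; rw [if_pos (hxm.symm ▸ hp)]
        rw [hfl]
        by_cases hq : s.rail m (!s.i)
        · simp only [Gv_both hp hq]; simp
        · simp only [Gv_left hp hq]
          have e3 : h m s.c ≤ -1 / 2 := by
            have hx2 : s.c.x = m + 1 := hx0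
            rw [h_at hx2, if_neg (show ¬ s.c.rail m s.c.i from hq)]
            split_ifs <;> norm_num
          rw [h_at hx0, if_pos hp]
          by_cases hr : s.rung (m + 1)
          · have : s.fc = 0 := by unfold St.fc; rw [if_pos (hx0.symm ▸ hr)]
            rw [this, if_pos (Or.inl hr)]
            simp
          · by_cases hr2 : s.rail (m + 1) s.i
            · have h1 : s.fr = 0 := by unfold St.fr; rw [if_pos (hx0.symm ▸ hr2)]
              rw [h1, if_pos (Or.inr hr2)]
              nlinarith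
            · have h1 : s.fr = 1 := by unfold St.fr; rw [if_neg (hx0.symm ▸ hr2)]
              have h2 : s.fc = 1 := by unfold St.fc; rw [if_neg (hx0.symm ▸ hr)]
              rw [h1, h2, if_neg (by tauto)]
              linarith
      · have hfl : s.fl = 1 := by unfold St.fl; rw [if_neg (hxm.symm ▸ hp)]
        have hq : s.rail m (!s.i) := by
          by_contra hq
          have hfr : ¬ s.rail m true ∧ ¬ s.rail m false := by
            cases hi : s.i
            · rw [hi] at hp hq; exact ⟨hq, hp⟩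
            · rw [hi] at hp hq; exact ⟨hp, hq⟩
          have := (hI.fresh m hm hfr.1 hfr.2).1
          omega
        have hh := hI.here (by omega)
        rw [hxm, hx0] at hh
        have hh' : s.rail (m + 1) s.i ∨ s.rung (m + 1) := hh.resolve_left hp
        rw [hfl, Gv_both (Or.inr hxm.symm) hq]
        simp only [Gv_right hp hq]
        rw [h_at hx0, if_neg hp]
        by_cases hr : s.rung (m + 1)
        · have h2 : s.fc = 0 := by unfold St.fc; rw [if_pos (hx0.symm ▸ hr)]
          by_cases hr2 : s.rail (m + 1) s.i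
          · have h1 : s.fr = 0 := by unfold St.fr; rw [if_pos (hx0.symm ▸ hr2)]
            rw [h1, h2, if_pos ⟨hr, hr2⟩]
            norm_num
          · have h1 : s.fr = 1 := by unfold St.fr; rw [if_neg (hx0.symm ▸ hr2)]
            rw [h1, h2, if_neg (by tauto)]
            norm_num
        · have hr2 : s.rail (m + 1) s.i := hh'.resolve_right hr
          have h1 : s.fr = 0 := by unfold St.fr; rw [if_pos (hx0.symm ▸ hr2)]
          have h2 : s.fc = 1 := by unfold St.fc; rw [if_neg (hx0.symm ▸ hr)]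
          have e3 : h m s.c = 0 := by
            have hx2 : s.c.x = m + 1 := hx0
            rw [h_at hx2, if_pos (show s.c.rail m s.c.i from hq), if_pos]
            exact Or.inl (Or.inr hx0.symm)
          rw [h1, h2, e3, if_neg (by tauto)]
          norm_num
    · -- gaps far to the left
      have e1 : h m s = 0 := h_far (by omega)
      have e2 : h m s.r = 0 := h_far (show m + 2 ≤ s.x + 1 by omega)
      have e3 : h m s.l ≤ 0 := h_right (show m + 1 ≤ s.x - 1 by omega)
      have e4 : h m s.c = 0 := h_far (show m + 2 ≤ s.x by omega)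
      have c1 : (s.rail m s.i ∨ m = s.x) ↔ s.rail m s.i := ⟨fun hh => hh.elim id (by omega), Or.inl⟩
      have c2 : (s.rail m s.i ∨ m = s.x - 1) ↔ s.rail m s.i :=
        ⟨fun hh => hh.elim id (by omega), Or.inl⟩
      rw [Gv_congr c1 Iff.rfl, Gv_congr c2 Iff.rfl, e1, e2, e4, if_neg (by omega),
        if_neg (by omega)]
      have := Gv_mono (s.rail m s.i) (s.rail m (!s.i)) e3
      nlinarith

end Pool.Agent.Q240.GW
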