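import Pool.Agent.Q240.GW.Super

set_option autoImplicit false

namespace Pool.Agent.Q240.GW

open Filter Topology

variable {L R m : ℤ} {s : St}

/-- the walk is at the origin -/
def org (s : St) : Prop := s.x = 0 ∧ s.i = false

/-- some rail edge of the gap `m` is visited -/
def crossed (m : ℤ) (s : St) : Prop := s.rail m true ∨ s.rail m false

open Classical in
/-- kill at the origin -/
noncomputable def kill (f : St → ℝ) (s : St) : ℝ := if org s then 0 else f s

open Classical in
/-- probability that the gap `m` is crossed within `n` steps before the origin is hit -/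
noncomputable def cu (m : ℤ) : ℕ → St → ℝ
  | 0, s => if crossed m s then 1 else 0
  | n + 1, s => if crossed m s then 1 else avg s (kill (cu m n))

lemma kill_nonneg {f : St → ℝ} {s : St} (h : 0 ≤ f s) : 0 ≤ kill f s := by
  unfold kill; split_ifs
  · exact le_rfl
  · exact h

lemma kill_le {f : St → ℝ} {s : St} {a : ℝ} (ha : 0 ≤ a) (h : f s ≤ a) : kill f s ≤ a := by
  unfold kill; split_ifs
  · exact ha
  · exact h

lemma kill_mono {f g : St → ℝ} {s : St} (h : f s ≤ g s) : kill f s ≤ kill g s := by
  unfold kill; split_ifs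
  · exact le_rfl
  · exact h

lemma avg_nonneg {f : St → ℝ} (h : ∀ t, 0 ≤ f t) : 0 ≤ avg s f := by
  have := avg_le (s := s) (f := fun _ => 0) (g := f) (fun _ => h _) (fun _ => h _) (fun _ => h _)
  rwa [avg_const] at this

lemma avg_le_const {f : St → ℝ} {a : ℝ} (h : ∀ t, f t ≤ a) : avg s f ≤ a := by
  have := avg_le (s := s) (g := fun _ => a) (f := f) (fun _ => h _) (fun _ => h _) (fun _ => h _)
  rwa [avg_const] at this

lemma cu_nonneg (m : ℤ) (n : ℕ) (s : St) : 0 ≤ cu m n s := by
  induction n generalizing s with
  | zero => unfold cu; split_ifs <;> norm_num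
  | succ n ih =>
    unfold cu; split_ifs
    · norm_num
    · exact avg_nonneg fun t => kill_nonneg (ih t)

lemma cu_le_one (m : ℤ) (n : ℕ) (s : St) : cu m n s ≤ 1 := by
  induction n generalizing s with
  | zero => unfold cu; split_ifs <;> norm_num
  | succ n ih =>
    unfold cu; split_ifs
    · norm_num
    · exact avg_le_const fun t => kill_le zero_le_one (ih t)

lemma cu_crossed (h : crossed m s) (n : ℕ) : cu m n s = 1 := by
  cases n with
  | zero => unfold cu; rw [if_pos h]
  | succ n => unfold cu; rw [if_pos h]

lemma cu_mono (m : ℤ) (n : ℕ) (s : St) : cu m n s ≤ cu m (n + 1) s := by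
  induction n generalizing s with
  | zero =>
    by_cases h : crossed m s
    · rw [cu_crossed h, cu_crossed h]
    · have : cu m 0 s = 0 := by unfold cu; rw [if_neg h]
      rw [this]; exact cu_nonneg _ _ _
  | succ n ih =>
    by_cases h : crossed m s
    · rw [cu_crossed h, cu_crossed h]
    · have e1 : cu m (n + 1) s = avg s (kill (cu m n)) := by rw [cu]; rw [if_neg h]
      have e2 : cu m (n + 1 + 1) s = avg s (kill (cu m (n + 1))) := by rw [cu]; rw [if_neg h]
      rw [e1, e2]
      exact avg_le (fun _ => kill_mono (ih _)) (fun _ => kill_mono (ih _))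
        (fun _ => kill_mono (ih _))

lemma crossed_r : crossed m s.r ↔ crossed m s ∨ m = s.x := by
  show ((s.rail m true ∨ (m = s.x ∧ true = s.i)) ∨ (s.rail m false ∨ (m = s.x ∧ false = s.i))) ↔
    (s.rail m true ∨ s.rail m false) ∨ m = s.x
  cases s.i <;> simp <;> tauto

lemma crossed_l : crossed m s.l ↔ crossed m s ∨ m = s.x - 1 := by
  show ((s.rail m true ∨ (m = s.x - 1 ∧ true = s.i)) ∨ (s.rail m false ∨ (m = s.x - 1 ∧ false = s.i))) ↔
    (s.rail m true ∨ s.rail m false) ∨ m = s.x - 1
  cases s.i <;> simp <;> tauto

lemma crossed_c : crossed m s.c ↔ crossed m s := Iff.rfl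

lemma not_crossed (hI : Inv L s) (hm : L ≤ m) (h : ¬ crossed m s) :
    s.x ≤ m ∧ (∀ j, ¬ s.rail (m + 1) j) ∧ ¬ s.rung (m + 1) :=
  hI.fresh m hm (fun h1 => h (Or.inl h1)) (fun h1 => h (Or.inr h1))

lemma crossed_anti (hI : Inv L s) (hm : L ≤ m) (k : ℕ) (h : ¬ crossed m s) :
    ¬ crossed (m + k) s := by
  induction k with
  | zero => simpa using h
  | succ k ih =>
    obtain ⟨-, h2, -⟩ := not_crossed hI (by omega) ih
    rintro (h1 | h1)
    · exact h2 true (by push_cast at h1; rwa [add_assoc])
    · exact h2 false (by push_cast at h1; rwa [add_assoc])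

lemma crossed_mono {m' : ℤ} (hI : Inv L s) (hm : L ≤ m) (hmm : m ≤ m') (h : crossed m' s) :
    crossed m s := by
  by_contra h1
  have := crossed_anti hI hm (m' - m).toNat h1
  rw [Int.toNat_of_nonneg (by omega)] at this
  exact this (by rwa [add_sub_cancel])

lemma cu_anti {m' : ℤ} (hm : L ≤ m) (hmm : m ≤ m') (n : ℕ) (s : St) (hI : Inv L s) :
    cu m' n s ≤ cu m n s := by
  induction n generalizing s with
  | zero =>
    by_cases h : crossed m' s
    · rw [cu_crossed h, cu_crossed (crossed_mono hI hm hmm h)]
    · have : cu m' 0 s = 0 := by unfold cu; rw [if_neg h]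
      rw [this]; exact cu_nonneg _ _ _
  | succ n ih =>
    by_cases h : crossed m s
    · rw [cu_crossed h]; exact cu_le_one _ _ _
    · have h' : ¬ crossed m' s := fun h2 => h (crossed_mono hI hm hmm h2)
      rw [cu, cu, if_neg h, if_neg h']
      exact avg_le (fun o => kill_mono (ih _ (inv_r hI o))) (fun o => kill_mono (ih _ (inv_l hI o)))
        (fun o => kill_mono (ih _ (inv_c hI o)))

/-- the indicator of `crossed` -/
noncomputable def ic (m : ℤ) (s : St) : ℝ := 1 - u (crossed m s)

lemma ic_pos (h : crossed m s) : ic m s = 1 := by unfold ic; rw [u_true h]; ring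
lemma ic_neg (h : ¬ crossed m s) : ic m s = 0 := by unfold ic; rw [u_false h]; ring

lemma G_ge (m : ℤ) (s : St) : -3 / 4 * ic m s - (if m = s.x - 1 then 1 else 0) ≤ G m s := by
  have hh : -(if m = s.x - 1 then (1 : ℝ) else 0) ≤ h m s := by
    rcases le_or_gt s.x m with hx | hx
    · rw [h_le hx]; split_ifs <;> norm_num
    · rcases eq_or_lt_of_le (Int.add_one_le_iff.mpr hx) with hx' | hx'
      · rw [if_pos (by omega)]; exact h_ge _ _
      · rw [h_far (by omega)]; split_ifs <;> norm_num
  have h0 : (0 : ℝ) ≤ (if m = s.x - 1 then 1 else 0) := by split_ifs <;> norm_num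
  generalize (if m = s.x - 1 then (1 : ℝ) else 0) = A at hh h0 ⊢
  by_cases h1 : s.rail m true ∧ s.rail m false
  · unfold G
    rw [Gv_both h1.1 h1.2, ic_pos (Or.inl h1.1)]
    linarith
  · by_cases h2 : s.rail m true ∨ s.rail m false
    · have : G m s = -3 / 4 + h m s := by
        unfold G Gv
        rw [if_neg h1, if_pos h2]
      rw [this, ic_pos h2]
      linarith
    · have : G m s = 0 := by
        unfold G Gv
        rw [if_neg h1, if_neg h2]
      rw [this, ic_neg h2]
      linarith

lemma sum_G_ge : -3 / 4 * ∑ m ∈ Finset.Ico L R, ic m s - 1 ≤ ∑ m ∈ Finset.Ico L R, G m s := by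
  have h1 : ∑ m ∈ Finset.Ico L R, (-3 / 4 * ic m s - (if m = s.x - 1 then (1 : ℝ) else 0)) ≤
    ∑ m ∈ Finset.Ico L R, G m s := Finset.sum_le_sum fun m _ => G_ge m s
  rw [Finset.sum_sub_distrib, ← Finset.mul_sum, Finset.sum_ite_eq'] at h1
  have h2 : (if s.x - 1 ∈ Finset.Ico L R then (1 : ℝ) else 0) ≤ 1 := by split_ifs <;> norm_num
  linarith

lemma Psi_ge : -3 / 4 * ∑ m ∈ Finset.Ico L R, ic m s + s.x - 1 ≤ Psi L R s ∨ org s := by
  by_cases ho : org s
  · exact Or.inr ho
  · left
    have h1 := sum_G_ge (L := L) (R := R) (s := s)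
    have h2 := Uo_nonneg L s.rail
    have h3 : (s.x : ℝ) ≤ Fp s := by
      unfold Fp
      rw [if_neg (show ¬ (s.x = 0 ∧ s.i = false) from ho)]
      simp
    unfold Psi
    linarith

lemma Psi_ge2 : -3 / 4 * ∑ m ∈ Finset.Ico L R, ic m s - 2 ≤ Psi L R s := by
  have h1 := sum_G_ge (L := L) (R := R) (s := s)
  have h2 := Uo_nonneg L s.rail
  have h3 : (-1 : ℝ) ≤ Fp s := by
    unfold Fp
    have : (0 : ℝ) ≤ max (s.x : ℝ) 0 := le_max_right _ _
    split_ifs <;> linarith
  unfold Psi
  linarith

/-- the main inequality -/
theorem main (hL : 0 ≤ L) (hLR : L < R) (n : ℕ) (s : St) (hI : Inv L s) (ho : ¬ org s)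
    (hc : ¬ crossed (R - 1) s) :
    R * cu (R - 1) n s - 3 / 4 * ∑ m ∈ Finset.Ico L R, cu m n s - 2 ≤ Psi L R s := by
  induction n generalizing s with
  | zero =>
    have e : ∀ m ∈ Finset.Ico L R, cu m 0 s = ic m s := by
      intro m _
      unfold cu
      split_ifs with h1
      · rw [ic_pos h1]
      · rw [ic_neg h1]
    rw [Finset.sum_congr rfl e]
    have e1 : cu (R - 1) 0 s = 0 := by unfold cu; rw [if_neg hc]
    rw [e1]
    have := Psi_ge2 (L := L) (R := R) (s := s)
    linarith
  | succ n ih =>
    have hx : s.x ≤ R - 1 := (not_crossed hI (by omega) hc).1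
    have hsup := super (R := R) hI hL (by omega) ho
    classical
    -- the comparison functions
    let g : ℤ → St → ℝ := fun m t => if org t then ic m t else cu m n t
    have key : ∀ m ∈ Finset.Ico L R, avg s (g m) ≤ cu m (n + 1) s := by
      intro m hm
      have hLm := (Finset.mem_Ico.mp hm).1
      by_cases h : crossed m s
      · rw [cu_crossed h]
        refine avg_le_const fun t => ?_
        show (if org t then ic m t else cu m n t) ≤ 1
        split_ifs
        · unfold ic; linarith [u_nonneg (crossed m t)]
        · exact cu_le_one _ _ _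
      · rw [cu, if_neg h]
        have hxm := (not_crossed hI hLm h).1
        refine avg_le (fun o => ?_) (fun o => ?_) (fun o => ?_)
        · show (if org s.r then ic m s.r else cu m n s.r) ≤ kill (cu m n) s.r
          unfold kill
          split_ifs with ho'
          · refine (ic_neg ?_).le
            rw [crossed_r]
            rintro (h1 | h1)
            · exact h h1
            · have : s.x + 1 = 0 := ho'.1
              omega
          · exact le_rfl
        · show (if org s.l then ic m s.l else cu m n s.l) ≤ kill (cu m n) s.l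
          unfold kill
          split_ifs with ho'
          · refine (ic_neg ?_).le
            rw [crossed_l]
            rintro (h1 | h1)
            · exact h h1
            · omega
          · exact le_rfl
        · show (if org s.c then ic m s.c else cu m n s.c) ≤ kill (cu m n) s.c
          unfold kill
          split_ifs with ho'
          · refine (ic_neg ?_).le
            rw [crossed_c]
            exact h
          · exact le_rfl
    have step : ∀ t, Inv L t → t.x ≤ R → (t.x = R ∨ ¬ crossed (R - 1) t) →
        R * kill (cu (R - 1) n) t - 3 / 4 * ∑ m ∈ Finset.Ico L R, g m t - 2 ≤ Psi L R t := by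
      intro t hIt hxt hct
      by_cases hot : org t
      · have e1 : kill (cu (R - 1) n) t = 0 := by unfold kill; rw [if_pos hot]
        have e2 : ∀ m ∈ Finset.Ico L R, g m t = ic m t := fun m _ => if_pos hot
        rw [e1, Finset.sum_congr rfl e2]
        have := Psi_ge2 (L := L) (R := R) (s := t)
        linarith
      · have e1 : kill (cu (R - 1) n) t = cu (R - 1) n t := by unfold kill; rw [if_neg hot]
        have e2 : ∀ m ∈ Finset.Ico L R, g m t = cu m n t := fun m _ => if_neg hot
        rw [e1, Finset.sum_congr rfl e2]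
        by_cases hcr : crossed (R - 1) t
        · have htR : t.x = R := hct.resolve_right (fun h => h hcr)
          have e3 : ∀ m ∈ Finset.Ico L R, crossed m t := by
            intro m hm
            have := Finset.mem_Ico.mp hm
            exact crossed_mono hIt this.1 (by omega) hcr
          have e4 : ∀ m ∈ Finset.Ico L R, cu m n t = ic m t := fun m hm => by
            rw [cu_crossed (e3 m hm), ic_pos (e3 m hm)]
          rw [cu_crossed hcr, Finset.sum_congr rfl e4]
          have := (Psi_ge (L := L) (R := R) (s := t)).resolve_right hot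
          rw [htR] at this
          linarith
        · exact ih t hIt hot hcr
    have tot : avg s (fun t => R * kill (cu (R - 1) n) t - 3 / 4 * ∑ m ∈ Finset.Ico L R, g m t - 2) ≤
        avg s (Psi L R) := by
      refine avg_le (fun o => ?_) (fun o => ?_) (fun o => ?_)
      · refine step _ (inv_r hI o) (show s.x + 1 ≤ R by omega) ?_
        rcases eq_or_lt_of_le hx with h | h
        · left
          show s.x + 1 = R
          omega
        · right
          rw [crossed_r]
          rintro (h1 | h1)
          · exact hc h1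
          · omega
      · refine step _ (inv_l hI o) (show s.x - 1 ≤ R by omega) (Or.inr ?_)
        rw [crossed_l]
        rintro (h1 | h1)
        · exact hc h1
        · omega
      · exact step _ (inv_c hI o) (show s.x ≤ R by omega) (Or.inr hc)
    rw [avg_sub, avg_sub, avg_const, avg_mul, avg_mul, avg_sum] at tot
    have hsum : ∑ m ∈ Finset.Ico L R, avg s (g m) ≤ ∑ m ∈ Finset.Ico L R, cu m (n + 1) s :=
      Finset.sum_le_sum key
    have e5 : cu (R - 1) (n + 1) s = avg s (kill (cu (R - 1) n)) := by rw [cu, if_neg hc]
    rw [e5]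
    linarith

end Pool.Agent.Q240.GW
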