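import Pool.Agent.Q240.GW.Step

set_option autoImplicit false

namespace Pool.Agent.Q240.GW

variable {L : ℤ} {s : St}

lemma inv_r (hI : Inv L s) (ok : s.okr) : Inv L s.r := by
  refine ⟨fun m hm h1 h2 => ?_, fun _ => ?_, fun c j hc hne => ?_⟩
  · have hx : m ≠ s.x := by
      rintro rfl
      cases hi : s.i
      · exact h2 (Or.inr ⟨rfl, hi.symm⟩)
      · exact h1 (Or.inr ⟨rfl, hi.symm⟩)
    obtain ⟨h3, h4, h5⟩ := hI.fresh m hm (fun h => h1 (Or.inl h)) (fun h => h2 (Or.inl h))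
    refine ⟨?_, fun j hj => ?_, h5⟩
    · show s.x + 1 ≤ m
      omega
    · rcases hj with hj | hj
      · exact h4 j hj
      · have := hj.1
        omega
  · left
    show s.rail (s.x + 1 - 1) s.i ∨ (s.x + 1 - 1 = s.x ∧ s.i = s.i)
    right
    exact ⟨by ring, rfl⟩
  · show (s.rail (c - 1) j ∨ (c - 1 = s.x ∧ j = s.i) → (s.rail c j ∨ (c = s.x ∧ j = s.i)) ∨ s.rung c) ∧
      (s.rail c j ∨ (c = s.x ∧ j = s.i) → (s.rail (c - 1) j ∨ (c - 1 = s.x ∧ j = s.i)) ∨ s.rung c) ∧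
      (s.rung c → (s.rail (c - 1) j ∨ (c - 1 = s.x ∧ j = s.i)) ∨ (s.rail c j ∨ (c = s.x ∧ j = s.i)))
    have hne' : ¬ (s.x + 1 = c ∧ s.i = j) := hne
    have e1 : ¬ (c - 1 = s.x ∧ j = s.i) := fun h => hne' ⟨by omega, h.2.symm⟩
    by_cases hh : s.x = c ∧ s.i = j
    · obtain ⟨rfl, rfl⟩ := hh
      have := hI.here hc
      rcases ok with ok | ok
      · tauto
      · obtain ⟨o1, o2, o3⟩ := ok
        tauto
    · have := hI.there c j hc hh
      have e2 : ¬ (c = s.x ∧ j = s.i) := fun h => hh ⟨h.1.symm, h.2.symm⟩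
      tauto

lemma inv_l (hI : Inv L s) (ok : s.okl) : Inv L s.l := by
  refine ⟨fun m hm h1 h2 => ?_, fun _ => ?_, fun c j hc hne => ?_⟩
  · have hx : m ≠ s.x - 1 := by
      rintro rfl
      cases hi : s.i
      · exact h2 (Or.inr ⟨rfl, hi.symm⟩)
      · exact h1 (Or.inr ⟨rfl, hi.symm⟩)
    obtain ⟨h3, h4, h5⟩ := hI.fresh m hm (fun h => h1 (Or.inl h)) (fun h => h2 (Or.inl h))
    refine ⟨?_, fun j hj => ?_, h5⟩
    · show s.x - 1 ≤ m
      omega
    · rcases hj with hj | hj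
      · exact h4 j hj
      · have := hj.1
        omega
  · right; left
    show s.rail (s.x - 1) s.i ∨ (s.x - 1 = s.x - 1 ∧ s.i = s.i)
    right
    exact ⟨rfl, rfl⟩
  · show (s.rail (c - 1) j ∨ (c - 1 = s.x - 1 ∧ j = s.i) → (s.rail c j ∨ (c = s.x - 1 ∧ j = s.i)) ∨ s.rung c) ∧
      (s.rail c j ∨ (c = s.x - 1 ∧ j = s.i) → (s.rail (c - 1) j ∨ (c - 1 = s.x - 1 ∧ j = s.i)) ∨ s.rung c) ∧
      (s.rung c → (s.rail (c - 1) j ∨ (c - 1 = s.x - 1 ∧ j = s.i)) ∨ (s.rail c j ∨ (c = s.x - 1 ∧ j = s.i)))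
    have hne' : ¬ (s.x - 1 = c ∧ s.i = j) := hne
    have e1 : ¬ (c = s.x - 1 ∧ j = s.i) := fun h => hne' ⟨by omega, h.2.symm⟩
    by_cases hh : s.x = c ∧ s.i = j
    · obtain ⟨rfl, rfl⟩ := hh
      have := hI.here hc
      rcases ok with ok | ok
      · tauto
      · obtain ⟨o1, o2, o3⟩ := ok
        tauto
    · have := hI.there c j hc hh
      have e2 : ¬ (c - 1 = s.x - 1 ∧ j = s.i) := fun h => hh ⟨by omega, h.2.symm⟩
      tauto

lemma inv_c (hI : Inv L s) (ok : s.okc) : Inv L s.c := by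
  refine ⟨fun m hm h1 h2 => ?_, fun _ => ?_, fun c j hc hne => ?_⟩
  · obtain ⟨h3, h4, h5⟩ := hI.fresh m hm h1 h2
    refine ⟨h3, h4, fun hj => ?_⟩
    rcases hj with hj | hj
    · exact h5 hj
    · omega
  · right; right
    exact Or.inr rfl
  · show (s.rail (c - 1) j → s.rail c j ∨ (s.rung c ∨ c = s.x)) ∧
      (s.rail c j → s.rail (c - 1) j ∨ (s.rung c ∨ c = s.x)) ∧
      ((s.rung c ∨ c = s.x) → s.rail (c - 1) j ∨ s.rail c j)
    have hne' : ¬ (s.x = c ∧ (!s.i) = j) := hne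
    by_cases hh : s.x = c ∧ s.i = j
    · obtain ⟨rfl, rfl⟩ := hh
      have := hI.here hc
      rcases ok with ok | ok
      · tauto
      · obtain ⟨o1, o2, o3⟩ := ok
        tauto
    · have := hI.there c j hc hh
      have e2 : c ≠ s.x := by
        rintro rfl
        cases hi : s.i <;> cases hj : j <;> simp_all
      tauto

end Pool.Agent.Q240.GW
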