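import Pool.Agent.Q240.GW.Hit

set_option autoImplicit false

namespace Pool.Agent.Q240.GW

open Filter Topology

variable {L R m : ℤ} {s : St}

/-- a decreasing sequence which is at most `C / n` plus three quarters of its averages tends to 0 -/
lemma cesaro_zero {v : ℕ → ℝ} (hv : Antitone v) (h0 : ∀ n, 0 ≤ v n) {C : ℝ}
    (h : ∀ n : ℕ, ((n : ℝ) + 1) * v n ≤ C + 3 / 4 * ∑ j ∈ Finset.range (n + 1), v j) :
    Tendsto v atTop (𝓝 0) := by
  obtain ⟨l, hl⟩ : ∃ l, Tendsto v atTop (𝓝 l) :=
    ⟨_, tendsto_atTop_ciInf hv ⟨0, by rintro _ ⟨n, rfl⟩; exact h0 n⟩⟩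
  have hl0 : 0 ≤ l := ge_of_tendsto' hl h0
  have h1 : Tendsto (fun n : ℕ => ((n + 1 : ℕ) : ℝ)⁻¹ * ∑ i ∈ Finset.range (n + 1), v i) atTop
      (𝓝 l) := hl.cesaro.comp (tendsto_add_atTop_nat 1)
  have h2 : Tendsto (fun n : ℕ => C * ((n + 1 : ℕ) : ℝ)⁻¹) atTop (𝓝 (C * 0)) :=
    (tendsto_inv_atTop_zero.comp
      (tendsto_natCast_atTop_atTop.comp (tendsto_add_atTop_nat 1))).const_mul C
  have h3 : ∀ n : ℕ, v n ≤ C * ((n + 1 : ℕ) : ℝ)⁻¹ +
      3 / 4 * (((n + 1 : ℕ) : ℝ)⁻¹ * ∑ i ∈ Finset.range (n + 1), v i) := by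
    intro n
    have hn : (0 : ℝ) < ((n + 1 : ℕ) : ℝ) := by positivity
    have := h n
    have e : C * ((n + 1 : ℕ) : ℝ)⁻¹ +
      3 / 4 * (((n + 1 : ℕ) : ℝ)⁻¹ * ∑ i ∈ Finset.range (n + 1), v i) =
      (C + 3 / 4 * ∑ i ∈ Finset.range (n + 1), v i) / ((n + 1 : ℕ) : ℝ) := by
      field_simp
    rw [e, le_div_iff₀ hn]
    push_cast
    linarith
  have h4 : l ≤ C * 0 + 3 / 4 * l := le_of_tendsto_of_tendsto' hl (h2.add (h1.const_mul _)) h3
  have : l = 0 := by linarith
  rwa [this] at hl

/-- a state whose visited edges all lie to the left of the column `L` (included), position too -/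
structure Base (L : ℤ) (s : St) : Prop where
  pos : s.x ≤ L
  rail : ∀ m j, L ≤ m → ¬ s.rail m j
  rung : ∀ c, L < c → ¬ s.rung c

lemma Base.inv (h : Base L s) : Inv L s := by
  refine ⟨fun m hm _ _ => ⟨h.pos.trans hm, fun j => h.rail _ _ (by omega), h.rung _ (by omega)⟩,
    fun hx => absurd h.pos (by omega), fun c j hc _ => ⟨fun h1 => ?_, fun h1 => ?_, fun h1 => ?_⟩⟩
  · exact absurd h1 (h.rail _ _ (by omega))
  · exact absurd h1 (h.rail _ _ (by omega))
  · exact absurd h1 (h.rung _ (by omega))

lemma Base.mono {L' : ℤ} (h : Base L s) (hL : L ≤ L') : Base L' s :=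
  ⟨h.pos.trans hL, fun m j hm => h.rail m j (hL.trans hm), fun c hc => h.rung c (by omega)⟩

lemma Base.not_crossed (h : Base L s) (hm : L ≤ m) : ¬ crossed m s := by
  rintro (h1 | h1)
  · exact h.rail _ _ hm h1
  · exact h.rail _ _ hm h1

/-- crossing far gaps before hitting the origin is unlikely -/
theorem far (hL : 0 ≤ L) (hB : Base L s) (ho : ¬ org s) {ε : ℝ} (hε : 0 < ε) :
    ∃ M : ℤ, L ≤ M ∧ ∀ m, M ≤ m → ∀ n, cu m n s ≤ ε := by
  classical
  have bdd : ∀ m, BddAbove (Set.range fun n => cu m n s) := fun m =>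
    ⟨1, by rintro _ ⟨n, rfl⟩; exact cu_le_one _ _ _⟩
  let v : ℕ → ℝ := fun k => ⨆ n, cu (L + k) n s
  have hcu : ∀ k n, cu (L + (k : ℕ)) n s ≤ v k := fun k n => le_ciSup (bdd _) n
  have hv : Antitone v := by
    intro a b hab
    refine ciSup_le fun n => ?_
    refine (cu_anti (L := L) (by omega) (by omega) n s hB.inv).trans (hcu a n)
  have hv0 : ∀ k, 0 ≤ v k := fun k => (cu_nonneg _ 0 _).trans (hcu k 0)
  have hG : ∀ R, ∑ m ∈ Finset.Ico L R, G m s = 0 := fun R => Finset.sum_eq_zero fun m hm => by
    have h1 := (Finset.mem_Ico.mp hm).1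
    unfold G
    exact Gv_none (hB.rail m _ h1) (hB.rail m _ h1) _
  have hmain : ∀ n : ℕ, ((n : ℝ) + 1) * v n ≤
      (Fp s + Uo L s.rail + 2) + 3 / 4 * ∑ j ∈ Finset.range (n + 1), v j := by
    intro k
    have hk : ∀ n, cu (L + (k : ℕ)) n s ≤
        ((Fp s + Uo L s.rail + 2) + 3 / 4 * ∑ j ∈ Finset.range (k + 1), v j) / ((k : ℝ) + 1) := by
      intro n
      rw [le_div_iff₀ (by positivity)]
      have := main (R := L + k + 1) hL (by omega) n s hB.inv ho
        (by rw [add_sub_cancel_right]; exact hB.not_crossed (by omega))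
      unfold Psi at this
      rw [hG, add_sub_cancel_right] at this
      have hs : ∑ m ∈ Finset.Ico L (L + k + 1), cu m n s ≤ ∑ j ∈ Finset.range (k + 1), v j := by
        have e : Finset.Ico L (L + k + 1) = (Finset.range (k + 1)).image (fun j : ℕ => L + (j : ℤ)) := by
          ext a
          simp only [Finset.mem_Ico, Finset.mem_image, Finset.mem_range]
          constructor
          · intro ha
            exact ⟨(a - L).toNat, by omega, by omega⟩
          · rintro ⟨j, hj, rfl⟩
            omega
        rw [e, Finset.sum_image (by intro a _ b _ hab; simpa using hab)]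
        exact Finset.sum_le_sum fun j _ => hcu j n
      have hc0 := cu_nonneg (L + k) n s
      have hL' : (0 : ℝ) ≤ L := by exact_mod_cast hL
      have : ((L : ℝ) + k + 1) * cu (L + k) n s - 3 / 4 * ∑ m ∈ Finset.Ico L (L + k + 1), cu m n s - 2
          ≤ Fp s + Uo L s.rail + 0 := by
        have h2 := this
        push_cast at h2
        exact h2
      nlinarith
    have := ciSup_le hk
    rwa [le_div_iff₀ (by positivity), mul_comm] at this
  have hlim := cesaro_zero hv hv0 hmain
  obtain ⟨N, hN⟩ := (hlim.eventually (gt_mem_nhds hε)).exists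
  refine ⟨L + N, by omega, fun m hm n => ?_⟩
  exact (cu_anti (L := L) (by omega) hm n s hB.inv).trans ((hcu N n).trans hN.le)

/-- reflection -/
def refl (s : St) : St := ⟨-s.x, s.i, fun m j => s.rail (-m - 1) j, fun m => s.rung (-m)⟩

lemma refl_r (s : St) : refl s.r = (refl s).l := by
  unfold refl St.r St.l
  simp only [St.mk.injEq, true_and, and_true]
  refine ⟨by ring, ?_⟩
  funext m j
  apply propext
  have : (-m - 1 = s.x) ↔ (m = -s.x - 1) := by omega
  rw [this]

lemma refl_l (s : St) : refl s.l = (refl s).r := by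
  unfold refl St.r St.l
  simp only [St.mk.injEq, true_and, and_true]
  refine ⟨by ring, ?_⟩
  funext m j
  apply propext
  have : (-m - 1 = s.x - 1) ↔ (m = -s.x) := by omega
  rw [this]

lemma refl_c (s : St) : refl s.c = (refl s).c := by
  unfold refl St.c
  simp only [St.mk.injEq, true_and]
  funext m
  apply propext
  have : (-m = s.x) ↔ (m = -s.x) := by omega
  rw [this]

lemma org_refl : org (refl s) ↔ org s := by
  show (-s.x = 0 ∧ s.i = false) ↔ (s.x = 0 ∧ s.i = false)
  rw [neg_eq_zero]

lemma avg_refl (s : St) (f : St → ℝ) : avg (refl s) f = avg s (fun t => f (refl t)) := by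
  have e1 : (refl s).full ↔ s.full := by
    show (s.rail (- -s.x - 1) s.i ∧ s.rail (-(-s.x - 1) - 1) s.i ∧ s.rung (- -s.x)) ↔
      (s.rail s.x s.i ∧ s.rail (s.x - 1) s.i ∧ s.rung s.x)
    rw [neg_neg, show -(-s.x - 1) - 1 = s.x by ring]
    tauto
  have e2 : (refl s).fr = s.fl := by
    unfold St.fr St.fl
    congr 1
    show s.rail (- -s.x - 1) s.i = s.rail (s.x - 1) s.i
    rw [neg_neg]
  have e3 : (refl s).fl = s.fr := by
    unfold St.fr St.fl
    congr 1
    show s.rail (-(-s.x - 1) - 1) s.i = s.rail s.x s.i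
    rw [show -(-s.x - 1) - 1 = s.x by ring]
  have e4 : (refl s).fc = s.fc := by
    unfold St.fc
    congr 1
    show s.rung (- -s.x) = s.rung s.x
    rw [neg_neg]
  unfold avg
  beta_reduce
  rw [refl_r, refl_l, refl_c, e2, e3, e4]
  by_cases hf : s.full
  · rw [if_pos hf, if_pos (e1.mpr hf)]; ring
  · rw [if_neg hf, if_neg (fun h => hf (e1.mp h))]; congr 1 <;> ring

lemma okr_refl : (refl s).okr ↔ s.okl := by
  show ¬ s.rail (- -s.x - 1) s.i ∨ (s.rail (- -s.x - 1) s.i ∧ s.rail (-(-s.x - 1) - 1) s.i ∧ s.rung (- -s.x)) ↔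
    ¬ s.rail (s.x - 1) s.i ∨ (s.rail s.x s.i ∧ s.rail (s.x - 1) s.i ∧ s.rung s.x)
  rw [neg_neg, show -(-s.x - 1) - 1 = s.x by ring]
  tauto

lemma okl_refl : (refl s).okl ↔ s.okr := by
  show ¬ s.rail (-(-s.x - 1) - 1) s.i ∨ (s.rail (- -s.x - 1) s.i ∧ s.rail (-(-s.x - 1) - 1) s.i ∧ s.rung (- -s.x)) ↔
    ¬ s.rail s.x s.i ∨ (s.rail s.x s.i ∧ s.rail (s.x - 1) s.i ∧ s.rung s.x)
  rw [neg_neg, show -(-s.x - 1) - 1 = s.x by ring]
  tauto

lemma okc_refl : (refl s).okc ↔ s.okc := by
  show ¬ s.rung (- -s.x) ∨ (s.rail (- -s.x - 1) s.i ∧ s.rail (-(-s.x - 1) - 1) s.i ∧ s.rung (- -s.x)) ↔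
    ¬ s.rung s.x ∨ (s.rail s.x s.i ∧ s.rail (s.x - 1) s.i ∧ s.rung s.x)
  rw [neg_neg, show -(-s.x - 1) - 1 = s.x by ring]
  tauto

/-- both invariants -/
def Inv2 (L : ℤ) (s : St) : Prop := Inv L s ∧ Inv L (refl s)

lemma inv2_r (h : Inv2 L s) (o : s.okr) : Inv2 L s.r :=
  ⟨inv_r h.1 o, by rw [refl_r]; exact inv_l h.2 (okl_refl.mpr o)⟩

lemma inv2_l (h : Inv2 L s) (o : s.okl) : Inv2 L s.l :=
  ⟨inv_l h.1 o, by rw [refl_l]; exact inv_r h.2 (okr_refl.mpr o)⟩

lemma inv2_c (h : Inv2 L s) (o : s.okc) : Inv2 L s.c :=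
  ⟨inv_c h.1 o, by rw [refl_c]; exact inv_c h.2 (okc_refl.mpr o)⟩

/-- probability that the origin is not hit in the next `n` steps -/
noncomputable def nohit : ℕ → St → ℝ
  | 0, _ => 1
  | n + 1, s => avg s (kill (nohit n))

lemma nohit_nonneg (n : ℕ) (s : St) : 0 ≤ nohit n s := by
  induction n generalizing s with
  | zero => exact zero_le_one
  | succ n ih => exact avg_nonneg fun t => kill_nonneg (ih t)

lemma nohit_le_one (n : ℕ) (s : St) : nohit n s ≤ 1 := by
  induction n generalizing s with
  | zero => exact le_rfl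
  | succ n ih => exact avg_le_const fun t => kill_le zero_le_one (ih t)

/-- the walk has not left the window -/
def inside (R : ℤ) (s : St) : Prop := ¬ crossed (R - 1) s ∧ ¬ crossed (R - 1) (refl s)

open Classical in
/-- probability to stay in the window without hitting the origin -/
noncomputable def sy (R : ℤ) : ℕ → St → ℝ
  | 0, s => if inside R s then 1 else 0
  | n + 1, s => if inside R s then avg s (kill (sy R n)) else 0

open Classical in
/-- expected number of steps in the window, capped -/
noncomputable def tn (R : ℤ) : ℕ → St → ℝ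
  | 0, _ => 0
  | n + 1, s => if inside R s then 1 + avg s (kill (tn R n)) else 0

lemma sy_nonneg (n : ℕ) (s : St) : 0 ≤ sy R n s := by
  induction n generalizing s with
  | zero => unfold sy; split_ifs <;> norm_num
  | succ n ih =>
    unfold sy; split_ifs
    · exact avg_nonneg fun t => kill_nonneg (ih t)
    · exact le_rfl

lemma sy_le_one (n : ℕ) (s : St) : sy R n s ≤ 1 := by
  induction n generalizing s with
  | zero => unfold sy; split_ifs <;> norm_num
  | succ n ih =>
    unfold sy; split_ifs
    · exact avg_le_const fun t => kill_le zero_le_one (ih t)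
    · exact zero_le_one

lemma nohit_le (n : ℕ) (s : St) : nohit n s ≤ cu (R - 1) n s + cu (R - 1) n (refl s) + sy R n s := by
  induction n generalizing s with
  | zero =>
    by_cases h1 : crossed (R - 1) s
    · rw [cu_crossed h1]
      have := cu_nonneg (R - 1) 0 (refl s)
      have := sy_nonneg (R := R) 0 s
      have := nohit_le_one 0 s
      linarith
    · by_cases h2 : crossed (R - 1) (refl s)
      · rw [cu_crossed h2]
        have := cu_nonneg (R - 1) 0 s
        have := sy_nonneg (R := R) 0 s
        have := nohit_le_one 0 s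
        linarith
      · have : sy R 0 s = 1 := by unfold sy; rw [if_pos ⟨h1, h2⟩]
        have := cu_nonneg (R - 1) 0 s
        have := cu_nonneg (R - 1) 0 (refl s)
        have := nohit_le_one 0 s
        linarith
  | succ n ih =>
    by_cases h1 : crossed (R - 1) s
    · rw [cu_crossed h1]
      have := cu_nonneg (R - 1) (n + 1) (refl s)
      have := sy_nonneg (R := R) (n + 1) s
      have := nohit_le_one (n + 1) s
      linarith
    · by_cases h2 : crossed (R - 1) (refl s)
      · rw [cu_crossed h2]
        have := cu_nonneg (R - 1) (n + 1) s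
        have := sy_nonneg (R := R) (n + 1) s
        have := nohit_le_one (n + 1) s
        linarith
      · rw [cu, cu, if_neg h1, if_neg h2, avg_refl]
        have e : sy R (n + 1) s = avg s (kill (sy R n)) := by rw [sy, if_pos ⟨h1, h2⟩]
        rw [e, ← avg_add, ← avg_add]
        have k : ∀ t, kill (nohit n) t ≤
            kill (cu (R - 1) n) t + kill (cu (R - 1) n) (refl t) + kill (sy R n) t := by
          intro t
          unfold kill
          by_cases ho : org t
          · rw [if_pos ho, if_pos ho, if_pos (org_refl.mpr ho), if_pos ho]; norm_num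
          · rw [if_neg ho, if_neg ho, if_neg (fun h => ho (org_refl.mp h)), if_neg ho]
            exact ih t
        exact avg_le (fun _ => k _) (fun _ => k _) (fun _ => k _)

lemma tn_nonneg (n : ℕ) (s : St) : 0 ≤ tn R n s := by
  induction n generalizing s with
  | zero => exact le_rfl
  | succ n ih =>
    unfold tn; split_ifs
    · have := avg_nonneg (s := s) (f := kill (tn R n)) fun t => kill_nonneg (ih t)
      linarith
    · exact le_rfl

lemma sy_tn (n : ℕ) (s : St) : n * sy R n s ≤ tn R n s := by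
  induction n generalizing s with
  | zero => simp [tn]
  | succ n ih =>
    by_cases h : inside R s
    · rw [sy, tn, if_pos h, if_pos h]
      have h1 : avg s (kill (sy R n)) ≤ 1 := avg_le_const fun t => kill_le zero_le_one (sy_le_one n t)
      have h2 : n * avg s (kill (sy R n)) ≤ avg s (kill (tn R n)) := by
        rw [← avg_mul]
        have k : ∀ t, n * kill (sy R n) t ≤ kill (tn R n) t := by
          intro t
          unfold kill
          split_ifs
          · simp
          · exact ih t
        exact avg_le (fun _ => k _) (fun _ => k _) (fun _ => k _)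
      push_cast
      linarith
    · rw [sy, tn, if_neg h, if_neg h]; simp

/-- number of fresh edges in the window -/
noncomputable def Nf (R : ℤ) (s : St) : ℝ :=
  ∑ m ∈ Finset.Ico (-R) R, (u (s.rail m true) + u (s.rail m false) + u (s.rung m))

lemma Nf_nonneg (R : ℤ) (s : St) : 0 ≤ Nf R s :=
  Finset.sum_nonneg fun _ _ => add_nonneg (add_nonneg (u_nonneg _) (u_nonneg _)) (u_nonneg _)

lemma Nf_rail {x : ℤ} {i : Bool} {k : ℤ} {j : Bool} (hk : ¬ s.rail k i) (h1 : -R ≤ k) (h2 : k < R) :
    Nf R ⟨x, j, fun m j => s.rail m j ∨ (m = k ∧ j = i), s.rung⟩ = Nf R s - 1 := by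
  unfold Nf
  have e : ∀ m ∈ Finset.Ico (-R) R,
      (u (s.rail m true ∨ (m = k ∧ true = i)) + u (s.rail m false ∨ (m = k ∧ false = i)) +
        u (s.rung m)) =
      (u (s.rail m true) + u (s.rail m false) + u (s.rung m)) - (if m = k then 1 else 0) := by
    intro m _
    by_cases hmk : m = k
    · subst hmk
      cases i
      · have e1 : (s.rail m true ∨ (m = m ∧ true = false)) ↔ s.rail m true := by tauto
        rw [propext e1, u_true (Or.inr ⟨rfl, rfl⟩), u_false hk, if_pos rfl]
        ring
      · have e1 : (s.rail m false ∨ (m = m ∧ false = true)) ↔ s.rail m false := by tauto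
        rw [propext e1, u_true (Or.inr ⟨rfl, rfl⟩), u_false hk, if_pos rfl]
        ring
    · simp [hmk]
  refine (Finset.sum_congr rfl e).trans ?_
  rw [Finset.sum_sub_distrib, Finset.sum_ite_eq', if_pos (Finset.mem_Ico.mpr ⟨h1, h2⟩)]

lemma Nf_rung {x : ℤ} {k : ℤ} {j : Bool} (hk : ¬ s.rung k) (h1 : -R ≤ k) (h2 : k < R) :
    Nf R ⟨x, j, s.rail, fun m => s.rung m ∨ m = k⟩ = Nf R s - 1 := by
  unfold Nf
  have e : ∀ m ∈ Finset.Ico (-R) R,
      (u (s.rail m true) + u (s.rail m false) + u (s.rung m ∨ m = k)) =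
      (u (s.rail m true) + u (s.rail m false) + u (s.rung m)) - (if m = k then 1 else 0) := by
    intro m _
    by_cases hmk : m = k
    · subst hmk
      rw [u_true (Or.inr rfl), u_false hk, if_pos rfl]
      ring
    · simp [hmk]
  refine (Finset.sum_congr rfl e).trans ?_
  rw [Finset.sum_sub_distrib, Finset.sum_ite_eq', if_pos (Finset.mem_Ico.mpr ⟨h1, h2⟩)]

/-- the decreasing quantity in the window -/
noncomputable def Qf (R : ℤ) (s : St) : ℝ := (2 * R + 1) * Nf R s - (s.x : ℝ) ^ 2

lemma Qf_step (hx : |s.x| < R) : avg s (Qf R) ≤ Qf R s - 2 / 3 := by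
  obtain ⟨hx1, hx2⟩ := abs_lt.mp hx
  have hR0 : (0 : ℝ) < R := by exact_mod_cast (show 0 < R by omega)
  have hx1' : (-(R : ℝ)) + 1 ≤ s.x := by exact_mod_cast (show -R + 1 ≤ s.x by omega)
  have hx2' : (s.x : ℝ) + 1 ≤ R := by exact_mod_cast hx2
  unfold avg
  by_cases hf : s.full
  · rw [if_pos hf]
    have n1 : Nf R s.r = Nf R s := by
      unfold Nf
      refine Finset.sum_congr rfl fun m _ => ?_
      have : ∀ j, s.r.rail m j = s.rail m j := fun j => propext
        ⟨fun h => h.elim id (fun h => h.1 ▸ h.2 ▸ hf.1), Or.inl⟩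
      rw [this, this]; rfl
    have n2 : Nf R s.l = Nf R s := by
      unfold Nf
      refine Finset.sum_congr rfl fun m _ => ?_
      have : ∀ j, s.l.rail m j = s.rail m j := fun j => propext
        ⟨fun h => h.elim id (fun h => h.1 ▸ h.2 ▸ hf.2.1), Or.inl⟩
      rw [this, this]; rfl
    have n3 : Nf R s.c = Nf R s := by
      unfold Nf
      refine Finset.sum_congr rfl fun m _ => ?_
      have : s.c.rung m = s.rung m := propext ⟨fun h => h.elim id (fun h => h ▸ hf.2.2), Or.inl⟩
      rw [this]; rfl
    unfold Qf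
    rw [n1, n2, n3]
    show ((2 * R + 1) * Nf R s - ((s.x + 1 : ℤ) : ℝ) ^ 2 + ((2 * R + 1) * Nf R s - ((s.x - 1 : ℤ) : ℝ) ^ 2) +
      ((2 * R + 1) * Nf R s - (s.x : ℝ) ^ 2)) / 3 ≤ _
    push_cast
    nlinarith
  · rw [if_neg hf, div_le_iff₀ (tot_pos hf)]
    have k1 : s.fr * Qf R s.r ≤ s.fr * (Qf R s - 2 / 3) := by
      unfold St.fr
      split_ifs with h
      · simp
      · rw [one_mul, one_mul]
        unfold Qf
        have : Nf R s.r = Nf R s - 1 := Nf_rail h (by omega) (by omega)
        rw [this]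
        show (2 * R + 1) * (Nf R s - 1) - ((s.x + 1 : ℤ) : ℝ) ^ 2 ≤ _
        push_cast
        nlinarith
    have k2 : s.fl * Qf R s.l ≤ s.fl * (Qf R s - 2 / 3) := by
      unfold St.fl
      split_ifs with h
      · simp
      · rw [one_mul, one_mul]
        unfold Qf
        have : Nf R s.l = Nf R s - 1 := Nf_rail h (by omega) (by omega)
        rw [this]
        show (2 * R + 1) * (Nf R s - 1) - ((s.x - 1 : ℤ) : ℝ) ^ 2 ≤ _
        push_cast
        nlinarith
    have k3 : s.fc * Qf R s.c ≤ s.fc * (Qf R s - 2 / 3) := by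
      unfold St.fc
      split_ifs with h
      · simp
      · rw [one_mul, one_mul]
        unfold Qf
        have : Nf R s.c = Nf R s - 1 := Nf_rung h (by omega) (by omega)
        rw [this]
        show (2 * R + 1) * (Nf R s - 1) - (s.x : ℝ) ^ 2 ≤ _
        nlinarith
    linarith

lemma tn_le (hLR : L < R) (n : ℕ) (s : St) (hI : Inv2 L s) (hx : |s.x| ≤ R) :
    2 / 3 * tn R n s ≤ Qf R s + (R : ℝ) ^ 2 := by
  have hpos : ∀ t : St, |t.x| ≤ R → 0 ≤ Qf R t + (R : ℝ) ^ 2 := by
    intro t ht
    have h1 : |(t.x : ℝ)| ≤ R := by exact_mod_cast ht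
    have h2 : (t.x : ℝ) ^ 2 ≤ (R : ℝ) ^ 2 := sq_le_sq' (by linarith [neg_abs_le (t.x : ℝ)])
      ((le_abs_self _).trans h1)
    have h3 := Nf_nonneg R t
    have hR0 : (0 : ℝ) ≤ R := (abs_nonneg _).trans h1
    unfold Qf
    nlinarith [mul_nonneg (show (0 : ℝ) ≤ 2 * R + 1 by linarith) h3]
  induction n generalizing s with
  | zero => simpa [tn] using hpos s hx
  | succ n ih =>
    by_cases h : inside R s
    · rw [tn, if_pos h]
      have x1 := (not_crossed hI.1 (by omega) h.1).1
      have x2 : -s.x ≤ R - 1 := (not_crossed hI.2 (by omega) h.2).1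
      have hxs : |s.x| < R := abs_lt.mpr ⟨by omega, by omega⟩
      have h1 := Qf_step hxs
      have k : ∀ t, Inv2 L t → |t.x| ≤ R → 2 / 3 * kill (tn R n) t ≤ Qf R t + (R : ℝ) ^ 2 := by
        intro t ht hxt
        unfold kill
        split_ifs
        · simpa using hpos t hxt
        · exact ih t ht hxt
      have h2 : avg s (fun t => 2 / 3 * kill (tn R n) t) ≤ avg s (fun t => Qf R t + (R : ℝ) ^ 2) := by
        refine avg_le (fun o => k _ (inv2_r hI o) ?_) (fun o => k _ (inv2_l hI o) ?_)
          (fun o => k _ (inv2_c hI o) hx)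
        · show |s.x + 1| ≤ R
          exact abs_le.mpr ⟨by omega, by omega⟩
        · show |s.x - 1| ≤ R
          exact abs_le.mpr ⟨by omega, by omega⟩
      rw [avg_mul, avg_add, avg_const] at h2
      linarith
    · rw [tn, if_neg h]
      simpa using hpos s hx

/-- away from the origin, the origin is hit almost surely -/
theorem nohit_tendsto (hL : 0 ≤ L) (hB : Base L s) (hB' : Base L (refl s)) (ho : ¬ org s) :
    Tendsto (fun n => nohit n s) atTop (𝓝 0) := by
  rw [Metric.tendsto_atTop]
  intro ε hε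
  obtain ⟨M1, hM1, h1⟩ := far hL hB ho (show 0 < ε / 4 by linarith)
  obtain ⟨M2, hM2, h2⟩ := far hL hB' (fun h => ho (org_refl.mp h)) (show 0 < ε / 4 by linarith)
  set R : ℤ := max M1 M2 + 1 with hR
  have hR1 : M1 ≤ R - 1 := by simp [hR]
  have hR2 : M2 ≤ R - 1 := by simp [hR]
  have hI : Inv2 L s := ⟨hB.inv, hB'.inv⟩
  have hx : |s.x| ≤ R := abs_le.mpr ⟨by have : -s.x ≤ L := hB'.pos; omega, by have := hB.pos; omega⟩
  set C := 3 / 2 * (Qf R s + (R : ℝ) ^ 2) with hC
  have hsy : ∀ n : ℕ, (n : ℝ) * sy R n s ≤ C := by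
    intro n
    have h3 := tn_le (R := R) (by omega) n s hI hx
    have h4 := sy_tn (R := R) n s
    linarith
  obtain ⟨N, hN⟩ := exists_nat_gt (4 * C / ε)
  refine ⟨N + 1, fun n hn => ?_⟩
  have hn0 : (0 : ℝ) < n := by exact_mod_cast (show 0 < n by omega)
  have hnN : (N : ℝ) ≤ n := by exact_mod_cast (show N ≤ n by omega)
  have h5 : sy R n s < ε / 4 := by
    by_contra hcon
    push Not at hcon
    have h6 := hsy n
    have h7 : (n : ℝ) * (ε / 4) ≤ C := le_trans (mul_le_mul_of_nonneg_left hcon hn0.le) h6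
    have h8 : 4 * C < N * ε := by
      rwa [div_lt_iff₀ hε] at hN
    nlinarith
  have h6 := nohit_le (R := R) n s
  have h7 := h1 (R - 1) hR1 n
  have h8 := h2 (R - 1) hR2 n
  rw [Real.dist_eq, sub_zero, abs_of_nonneg (nohit_nonneg n s)]
  linarith

/-- from every state with finitely many visited edges the origin is hit again almost surely -/
theorem nohit_tendsto' (hL : 0 ≤ L) (hB : Base L s) (hB' : Base L (refl s)) :
    Tendsto (fun n => nohit n s) atTop (𝓝 0) := by
  by_cases ho : org s
  · rw [← tendsto_add_atTop_iff_nat 1]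
    have hr : Tendsto (fun n => nohit n s.r) atTop (𝓝 0) := by
      refine nohit_tendsto (L := L + 1) (by omega) ?_ ?_ (fun h => ?_)
      · refine ⟨?_, fun m j hm h => ?_, fun c hc => hB.rung c (by omega)⟩
        · show s.x + 1 ≤ L + 1
          have := hB.pos
          omega
        · rcases h with h | h
          · exact hB.rail m j (by omega) h
          · have := hB.pos
            have := h.1
            omega
      · refine ⟨?_, fun m j hm h => ?_, fun c hc => hB'.rung c (by omega)⟩
        · show -(s.x + 1) ≤ L + 1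
          have : -s.x ≤ L := hB'.pos
          omega
        · rcases h with h | h
          · exact hB'.rail m j (by omega) h
          · have : -s.x ≤ L := hB'.pos
            have := h.1
            omega
      · have h1 : s.x + 1 = 0 := h.1
        have := ho.1
        omega
    have hl : Tendsto (fun n => nohit n s.l) atTop (𝓝 0) := by
      refine nohit_tendsto (L := L + 1) (by omega) ?_ ?_ (fun h => ?_)
      · refine ⟨?_, fun m j hm h => ?_, fun c hc => hB.rung c (by omega)⟩
        · show s.x - 1 ≤ L + 1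
          have := hB.pos
          omega
        · rcases h with h | h
          · exact hB.rail m j (by omega) h
          · have := hB.pos
            have := h.1
            omega
      · refine ⟨?_, fun m j hm h => ?_, fun c hc => hB'.rung c (by omega)⟩
        · show -(s.x - 1) ≤ L + 1
          have : -s.x ≤ L := hB'.pos
          omega
        · rcases h with h | h
          · exact hB'.rail m j (by omega) h
          · have : -s.x ≤ L := hB'.pos
            have := h.1
            omega
      · have h1 : s.x - 1 = 0 := h.1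
        have := ho.1
        omega
    have hc : Tendsto (fun n => nohit n s.c) atTop (𝓝 0) := by
      refine nohit_tendsto (L := L + 1) (by omega) ?_ ?_ (fun h => ?_)
      · refine ⟨?_, fun m j hm h => hB.rail m j (by omega) h, fun c hc h => ?_⟩
        · show s.x ≤ L + 1
          have := hB.pos
          omega
        · rcases h with h | h
          · exact hB.rung c (by omega) h
          · have := hB.pos
            omega
      · refine ⟨?_, fun m j hm h => hB'.rail m j (by omega) h, fun c hc h => ?_⟩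
        · show -s.x ≤ L + 1
          have : -s.x ≤ L := hB'.pos
          omega
        · rcases h with h | h
          · exact hB'.rung c (by omega) h
          · have : -s.x ≤ L := hB'.pos
            omega
      · have h1 : (!s.i) = false := h.2
        have := ho.2
        rw [this] at h1
        exact absurd h1 (by decide)
    have hub : ∀ n, nohit (n + 1) s ≤ nohit n s.r + nohit n s.l + nohit n s.c := by
      intro n
      have k : ∀ t, kill (nohit n) t ≤ nohit n t := by
        intro t
        unfold kill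
        split_ifs
        · exact nohit_nonneg n t
        · exact le_rfl
      show avg s (kill (nohit n)) ≤ _
      have h1 : avg s (kill (nohit n)) ≤ avg s (fun _ => nohit n s.r + nohit n s.l + nohit n s.c) := by
        have a1 := nohit_nonneg n s.r
        have a2 := nohit_nonneg n s.l
        have a3 := nohit_nonneg n s.c
        refine avg_le (fun _ => ?_) (fun _ => ?_) (fun _ => ?_)
        · have := k s.r; linarith
        · have := k s.l; linarith
        · have := k s.c; linarith
      rwa [avg_const] at h1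
    have hz : Tendsto (fun n => nohit n s.r + nohit n s.l + nohit n s.c) atTop (𝓝 0) := by
      simpa using (hr.add hl).add hc
    exact squeeze_zero (fun n => nohit_nonneg _ _) hub hz
  · exact nohit_tendsto hL hB hB' ho

end Pool.Agent.Q240.GW
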