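import Pool.Agent.Q240.GW.Limit

set_option autoImplicit false

namespace Pool.Agent.Q240.GW

open Filter Topology MeasureTheory
open scoped ENNReal

/-- The neighbours `y` of `p t` such that the edge from `p t` to `y` is not yet visited at time `t`,
that is, not traversed in one of the steps `p r → p (r + 1)` with `r < t`. -/
def fresh {V : Type*} (G : SimpleGraph V) (p : ℕ → V) (t : ℕ) : Set V :=
  {y | G.Adj (p t) y ∧ ∀ r < t, s(p r, p (r + 1)) ≠ s(p t, y)}

open Classical in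
/-- The set from which the greedy walk with trajectory `p` draws its vertex at time `t + 1`:
the neighbours of `p t` along unvisited edges if there are any, otherwise all neighbours. -/
noncomputable def options {V : Type*} (G : SimpleGraph V) (p : ℕ → V) (t : ℕ) : Set V :=
  if (fresh G p t).Nonempty then fresh G p t else G.neighborSet (p t)

open Classical in
/-- the uniform probability of `y` in the finite set `S` -/
noncomputable def unif {V : Type*} (S : Set V) (y : V) : ℝ≥0∞ :=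
  if y ∈ S then ((S.ncard : ℕ) : ℝ≥0∞)⁻¹ else 0

/-- `X` is a greedy random walk on `G` started at `o`. -/
structure IsGreedyWalk {V Ω : Type*} [MeasurableSpace Ω] (G : SimpleGraph V) (o : V)
    (μ : Measure Ω) (X : ℕ → Ω → V) : Prop where
  meas : ∀ t v, MeasurableSet {ω | X t ω = v}
  start : ∀ᵐ ω ∂μ, X 0 ω = o
  step : ∀ (p : ℕ → V) (t : ℕ) (y : V), μ {ω | (∀ r ≤ t, X r ω = p r) ∧ X (t + 1) ω = y} =
    unif (options G p t) y * μ {ω | ∀ r ≤ t, X r ω = p r}

/-- The ladder `ℤ × ℤ_2`. -/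
def ladder : SimpleGraph (ℤ × Bool) where
  Adj a b := (a.2 = b.2 ∧ (b.1 = a.1 + 1 ∨ a.1 = b.1 + 1)) ∨ (a.1 = b.1 ∧ a.2 ≠ b.2)
  symm := ⟨fun a b h => by
    rcases h with ⟨h1, h2⟩ | ⟨h1, h2⟩
    · exact Or.inl ⟨h1.symm, h2.symm⟩
    · exact Or.inr ⟨h1.symm, h2.symm⟩⟩
  loopless := ⟨fun a h => by
    rcases h with ⟨_, h2⟩ | ⟨_, h2⟩
    · omega
    · exact h2 rfl⟩

variable {a : ℤ} {b : Bool} {p : ℕ → ℤ × Bool} {t : ℕ}

/-- the state of a trajectory, in coordinates in which `(a, b)` is the origin -/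
def st (a : ℤ) (b : Bool) (p : ℕ → ℤ × Bool) (t : ℕ) : St :=
  ⟨(p t).1 - a, xor (p t).2 b,
    fun m j => ∃ r < t, s(p r, p (r + 1)) = s((m + a, xor j b), (m + 1 + a, xor j b)),
    fun m => ∃ r < t, s(p r, p (r + 1)) = s((m + a, false), (m + a, true))⟩

/-- the three neighbours -/
def yr (v : ℤ × Bool) : ℤ × Bool := (v.1 + 1, v.2)
/-- the three neighbours -/
def yl (v : ℤ × Bool) : ℤ × Bool := (v.1 - 1, v.2)
/-- the three neighbours -/
def yc (v : ℤ × Bool) : ℤ × Bool := (v.1, !v.2)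

lemma adj_iff (v y : ℤ × Bool) : ladder.Adj v y ↔ y = yr v ∨ y = yl v ∨ y = yc v := by
  obtain ⟨n, i⟩ := v
  obtain ⟨m, j⟩ := y
  show (i = j ∧ (m = n + 1 ∨ n = m + 1)) ∨ (n = m ∧ i ≠ j) ↔
    (m, j) = (n + 1, i) ∨ (m, j) = (n - 1, i) ∨ (m, j) = (n, !i)
  simp only [Prod.mk.injEq]
  cases i <;> cases j <;> simp <;> omega

lemma rail_iff : (st a b p t).rail (st a b p t).x (st a b p t).i ↔
    ∃ r < t, s(p r, p (r + 1)) = s(p t, yr (p t)) := by
  show (∃ r < t, s(p r, p (r + 1)) = s(((p t).1 - a + a, xor (xor (p t).2 b) b),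
    ((p t).1 - a + 1 + a, xor (xor (p t).2 b) b))) ↔ _
  rw [Bool.xor_assoc, Bool.xor_self, Bool.xor_false, sub_add_cancel,
    show (p t).1 - a + 1 + a = (p t).1 + 1 by ring]
  rfl

lemma rail_iff' : (st a b p t).rail ((st a b p t).x - 1) (st a b p t).i ↔
    ∃ r < t, s(p r, p (r + 1)) = s(p t, yl (p t)) := by
  show (∃ r < t, s(p r, p (r + 1)) = s(((p t).1 - a - 1 + a, xor (xor (p t).2 b) b),
    ((p t).1 - a - 1 + 1 + a, xor (xor (p t).2 b) b))) ↔ _
  rw [Bool.xor_assoc, Bool.xor_self, Bool.xor_false,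
    show (p t).1 - a - 1 + a = (p t).1 - 1 by ring, show (p t).1 - a - 1 + 1 + a = (p t).1 by ring,
    Sym2.eq_swap]
  rfl

lemma rung_iff : (st a b p t).rung (st a b p t).x ↔
    ∃ r < t, s(p r, p (r + 1)) = s(p t, yc (p t)) := by
  show (∃ r < t, s(p r, p (r + 1)) = s(((p t).1 - a + a, false), ((p t).1 - a + a, true))) ↔ _
  rw [sub_add_cancel]
  have : s(((p t).1, false), ((p t).1, true)) = s(p t, yc (p t)) := by
    unfold yc
    rcases h : p t with ⟨n, i⟩
    cases i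
    · rfl
    · exact Sym2.eq_swap
  rw [this]

lemma st_r {p' : ℕ → ℤ × Bool} (h : ∀ r ≤ t, p' r = p r) (h1 : p' (t + 1) = yr (p t)) :
    st a b p' (t + 1) = (st a b p t).r := by
  have e0 : ∀ (q : Sym2 (ℤ × Bool)), (∃ r < t + 1, s(p' r, p' (r + 1)) = q) ↔
      ((∃ r < t, s(p r, p (r + 1)) = q) ∨ s(p t, yr (p t)) = q) := by
    intro q
    constructor
    · rintro ⟨r, hr, hq⟩
      rcases Nat.lt_succ_iff_lt_or_eq.mp hr with hr | rfl
      · left; exact ⟨r, hr, by rw [← h r (by omega), ← h (r + 1) (by omega)]; exact hq⟩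
      · right; rw [← hq, h _ le_rfl, h1]
    · rintro (⟨r, hr, hq⟩ | hq)
      · exact ⟨r, by omega, by rw [h r (by omega), h (r + 1) (by omega)]; exact hq⟩
      · exact ⟨t, by omega, by rw [h _ le_rfl, h1]; exact hq⟩
  unfold st St.r
  simp only [St.mk.injEq, e0]
  rw [h1]
  unfold yr
  refine ⟨by ring, rfl, ?_, ?_⟩
  · funext m j
    apply propext
    refine or_congr Iff.rfl ?_
    rcases hp : p t with ⟨n, i⟩
    simp only [Sym2.eq_iff, Prod.mk.injEq]
    constructor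
    · rintro (⟨⟨h2, h3⟩, h4, -⟩ | ⟨⟨h2, h3⟩, h4, -⟩)
      · refine ⟨by omega, ?_⟩
        subst h3
        rw [Bool.xor_assoc, Bool.xor_self, Bool.xor_false]
      · omega
    · rintro ⟨h2, h3⟩
      left
      subst h3
      rw [Bool.xor_assoc, Bool.xor_self, Bool.xor_false]
      refine ⟨⟨by omega, rfl⟩, by omega, rfl⟩
  · funext m
    apply propext
    rcases hp : p t with ⟨n, i⟩
    simp only [Sym2.eq_iff, Prod.mk.injEq]
    constructor
    · rintro (h2 | ⟨⟨h2, h3⟩, h4, h5⟩ | ⟨⟨h2, h3⟩, h4, h5⟩)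
      · exact h2
      · omega
      · omega
    · exact Or.inl

lemma st_l {p' : ℕ → ℤ × Bool} (h : ∀ r ≤ t, p' r = p r) (h1 : p' (t + 1) = yl (p t)) :
    st a b p' (t + 1) = (st a b p t).l := by
  have e0 : ∀ (q : Sym2 (ℤ × Bool)), (∃ r < t + 1, s(p' r, p' (r + 1)) = q) ↔
      ((∃ r < t, s(p r, p (r + 1)) = q) ∨ s(p t, yl (p t)) = q) := by
    intro q
    constructor
    · rintro ⟨r, hr, hq⟩
      rcases Nat.lt_succ_iff_lt_or_eq.mp hr with hr | rfl
      · left; exact ⟨r, hr, by rw [← h r (by omega), ← h (r + 1) (by omega)]; exact hq⟩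
      · right; rw [← hq, h _ le_rfl, h1]
    · rintro (⟨r, hr, hq⟩ | hq)
      · exact ⟨r, by omega, by rw [h r (by omega), h (r + 1) (by omega)]; exact hq⟩
      · exact ⟨t, by omega, by rw [h _ le_rfl, h1]; exact hq⟩
  unfold st St.l
  simp only [St.mk.injEq, e0]
  rw [h1]
  unfold yl
  refine ⟨by ring, rfl, ?_, ?_⟩
  · funext m j
    apply propext
    refine or_congr Iff.rfl ?_
    rcases hp : p t with ⟨n, i⟩
    simp only [Sym2.eq_iff, Prod.mk.injEq]
    constructor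
    · rintro (⟨⟨h2, h3⟩, h4, -⟩ | ⟨⟨h2, h3⟩, h4, -⟩)
      · omega
      · refine ⟨by omega, ?_⟩
        subst h3
        rw [Bool.xor_assoc, Bool.xor_self, Bool.xor_false]
    · rintro ⟨h2, h3⟩
      right
      subst h3
      rw [Bool.xor_assoc, Bool.xor_self, Bool.xor_false]
      refine ⟨⟨by omega, rfl⟩, by omega, rfl⟩
  · funext m
    apply propext
    rcases hp : p t with ⟨n, i⟩
    simp only [Sym2.eq_iff, Prod.mk.injEq]
    constructor
    · rintro (h2 | ⟨⟨h2, h3⟩, h4, h5⟩ | ⟨⟨h2, h3⟩, h4, h5⟩)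
      · exact h2
      · omega
      · omega
    · exact Or.inl

lemma st_c {p' : ℕ → ℤ × Bool} (h : ∀ r ≤ t, p' r = p r) (h1 : p' (t + 1) = yc (p t)) :
    st a b p' (t + 1) = (st a b p t).c := by
  have e0 : ∀ (q : Sym2 (ℤ × Bool)), (∃ r < t + 1, s(p' r, p' (r + 1)) = q) ↔
      ((∃ r < t, s(p r, p (r + 1)) = q) ∨ s(p t, yc (p t)) = q) := by
    intro q
    constructor
    · rintro ⟨r, hr, hq⟩
      rcases Nat.lt_succ_iff_lt_or_eq.mp hr with hr | rfl
      · left; exact ⟨r, hr, by rw [← h r (by omega), ← h (r + 1) (by omega)]; exact hq⟩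
      · right; rw [← hq, h _ le_rfl, h1]
    · rintro (⟨r, hr, hq⟩ | hq)
      · exact ⟨r, by omega, by rw [h r (by omega), h (r + 1) (by omega)]; exact hq⟩
      · exact ⟨t, by omega, by rw [h _ le_rfl, h1]; exact hq⟩
  unfold st St.c
  simp only [St.mk.injEq, e0]
  rw [h1]
  unfold yc
  refine ⟨rfl, ?_, ?_, ?_⟩
  · cases (p t).2 <;> cases b <;> rfl
  · funext m j
    apply propext
    rcases hp : p t with ⟨n, i⟩
    simp only [Sym2.eq_iff, Prod.mk.injEq]
    constructor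
    · rintro (h2 | ⟨⟨h2, h3⟩, h4, h5⟩ | ⟨⟨h2, h3⟩, h4, h5⟩)
      · exact h2
      · omega
      · omega
    · exact Or.inl
  · funext m
    apply propext
    refine or_congr Iff.rfl ?_
    rcases hp : p t with ⟨n, i⟩
    simp only [Sym2.eq_iff, Prod.mk.injEq]
    constructor
    · rintro (⟨⟨h2, h3⟩, h4, -⟩ | ⟨⟨h2, h3⟩, h4, -⟩) <;> omega
    · intro h2
      cases i
      · left; exact ⟨⟨by omega, rfl⟩, by omega, rfl⟩
      · right; exact ⟨⟨by omega, rfl⟩, by omega, rfl⟩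

end Pool.Agent.Q240.GW
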