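import Mathlib

/-!
# The greedy random walk on the ladder: states, moves, a supermartingale (local computation)
-/

set_option autoImplicit false

namespace Pool.Agent.Q240.GW

/-- position `(x, i)`, visited rail edges (`rail m j`: the edge from `(m, j)` to `(m+1, j)`),
visited rungs. -/
structure St where
  x : ℤ
  i : Bool
  rail : ℤ → Bool → Prop
  rung : ℤ → Prop

namespace St

/-- move right -/
def r (s : St) : St := ⟨s.x + 1, s.i, fun m j => s.rail m j ∨ (m = s.x ∧ j = s.i), s.rung⟩
/-- move left -/
def l (s : St) : St := ⟨s.x - 1, s.i, fun m j => s.rail m j ∨ (m = s.x - 1 ∧ j = s.i), s.rung⟩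
/-- move along the rung -/
def c (s : St) : St := ⟨s.x, !s.i, s.rail, fun m => s.rung m ∨ m = s.x⟩

/-- all three edges at the present position are visited -/
def full (s : St) : Prop := s.rail s.x s.i ∧ s.rail (s.x - 1) s.i ∧ s.rung s.x

/-- the walk may move right -/
def okr (s : St) : Prop := ¬ s.rail s.x s.i ∨ s.full
/-- the walk may move left -/
def okl (s : St) : Prop := ¬ s.rail (s.x - 1) s.i ∨ s.full
/-- the walk may cross the rung -/
def okc (s : St) : Prop := ¬ s.rung s.x ∨ s.full

open Classical in
/-- indicator that the right edge is fresh -/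
noncomputable def fr (s : St) : ℝ := if s.rail s.x s.i then 0 else 1
open Classical in
/-- indicator that the left edge is fresh -/
noncomputable def fl (s : St) : ℝ := if s.rail (s.x - 1) s.i then 0 else 1
open Classical in
/-- indicator that the rung is fresh -/
noncomputable def fc (s : St) : ℝ := if s.rung s.x then 0 else 1

end St

open Classical in
/-- the expectation of `f` after one step of the greedy walk -/
noncomputable def avg (s : St) (f : St → ℝ) : ℝ :=
  if s.full then (f s.r + f s.l + f s.c) / 3
  else (s.fr * f s.r + s.fl * f s.l + s.fc * f s.c) / (s.fr + s.fl + s.fc)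

lemma tot_pos {s : St} (h : ¬ s.full) : 0 < s.fr + s.fl + s.fc := by
  unfold St.full at h
  unfold St.fr St.fl St.fc
  by_cases h1 : s.rail s.x s.i <;> by_cases h2 : s.rail (s.x - 1) s.i <;>
    by_cases h3 : s.rung s.x <;> simp_all <;> norm_num

lemma fr_nonneg (s : St) : 0 ≤ s.fr := by unfold St.fr; split_ifs <;> norm_num
lemma fl_nonneg (s : St) : 0 ≤ s.fl := by unfold St.fl; split_ifs <;> norm_num
lemma fc_nonneg (s : St) : 0 ≤ s.fc := by unfold St.fc; split_ifs <;> norm_num

lemma avg_le {s : St} {f g : St → ℝ} (hr : s.okr → f s.r ≤ g s.r) (hl : s.okl → f s.l ≤ g s.l)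
    (hc : s.okc → f s.c ≤ g s.c) : avg s f ≤ avg s g := by
  unfold avg
  by_cases h : s.full
  · rw [if_pos h, if_pos h]
    have h1 := hr (Or.inr h)
    have h2 := hl (Or.inr h)
    have h3 := hc (Or.inr h)
    linarith
  · rw [if_neg h, if_neg h]
    refine div_le_div_of_nonneg_right ?_ (tot_pos h).le
    have h1 : s.fr * f s.r ≤ s.fr * g s.r := by
      unfold St.fr
      split_ifs with hh
      · simp
      · simpa using hr (Or.inl hh)
    have h2 : s.fl * f s.l ≤ s.fl * g s.l := by
      unfold St.fl
      split_ifs with hh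
      · simp
      · simpa using hl (Or.inl hh)
    have h3 : s.fc * f s.c ≤ s.fc * g s.c := by
      unfold St.fc
      split_ifs with hh
      · simp
      · simpa using hc (Or.inl hh)
    linarith

lemma avg_congr {s : St} {f g : St → ℝ} (hr : s.okr → f s.r = g s.r) (hl : s.okl → f s.l = g s.l)
    (hc : s.okc → f s.c = g s.c) : avg s f = avg s g :=
  le_antisymm (avg_le (fun h => (hr h).le) (fun h => (hl h).le) (fun h => (hc h).le))
    (avg_le (fun h => (hr h).ge) (fun h => (hl h).ge) (fun h => (hc h).ge))

lemma avg_const (s : St) (a : ℝ) : avg s (fun _ => a) = a := by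
  unfold avg
  by_cases h : s.full
  · rw [if_pos h]; ring
  · rw [if_neg h]
    have := tot_pos h
    field_simp

lemma avg_add (s : St) (f g : St → ℝ) : avg s (fun t => f t + g t) = avg s f + avg s g := by
  unfold avg
  split_ifs <;> ring

lemma avg_sub (s : St) (f g : St → ℝ) : avg s (fun t => f t - g t) = avg s f - avg s g := by
  unfold avg
  split_ifs <;> ring

lemma avg_mul (s : St) (a : ℝ) (f : St → ℝ) : avg s (fun t => a * f t) = a * avg s f := by
  unfold avg
  split_ifs <;> ring

lemma avg_sum {ι : Type*} (s : St) (A : Finset ι) (f : ι → St → ℝ) :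
    avg s (fun t => ∑ m ∈ A, f m t) = ∑ m ∈ A, avg s (f m) := by
  classical
  induction A using Finset.induction_on with
  | empty => simpa using avg_const s 0
  | insert a A ha ih =>
    simp only [Finset.sum_insert ha]
    rw [avg_add, ih]

open Classical in
/-- potential of an unresolved gap -/
noncomputable def h (m : ℤ) (s : St) : ℝ :=
  if s.x ≤ m then 1
  else if s.x = m + 1 then
    (if s.rail m s.i then (if s.rung (m + 1) ∨ s.rail (m + 1) s.i then 0 else -1 / 4)
    else (if s.rung (m + 1) ∧ s.rail (m + 1) s.i then -1 else -1 / 2))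
  else 0

open Classical in
/-- the potential of a gap as a function of the two visited flags and the value `v` -/
noncomputable def Gv (p q : Prop) (v : ℝ) : ℝ :=
  if p ∧ q then -3 / 4 else if p ∨ q then -3 / 4 + v else 0

lemma Gv_congr {p q p' q' : Prop} (hp : p ↔ p') (hq : q ↔ q') (v : ℝ) : Gv p q v = Gv p' q' v := by
  rw [propext hp, propext hq]

lemma Gv_comm (p q : Prop) (v : ℝ) : Gv p q v = Gv q p v := by
  unfold Gv
  by_cases hp : p <;> by_cases hq : q <;> simp [hp, hq]

/-- contribution of the gap between the columns `m` and `m + 1` -/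
noncomputable def G (m : ℤ) (s : St) : ℝ := Gv (s.rail m true) (s.rail m false) (h m s)

/-- the invariants of the walk to the right of the column `L` -/
structure Inv (L : ℤ) (s : St) : Prop where
  fresh : ∀ m, L ≤ m → ¬ s.rail m true → ¬ s.rail m false →
    s.x ≤ m ∧ (∀ j, ¬ s.rail (m + 1) j) ∧ ¬ s.rung (m + 1)
  here : L < s.x → s.rail (s.x - 1) s.i ∨ s.rail s.x s.i ∨ s.rung s.x
  there : ∀ c j, L < c → ¬ (s.x = c ∧ s.i = j) →
    (s.rail (c - 1) j → s.rail c j ∨ s.rung c) ∧ (s.rail c j → s.rail (c - 1) j ∨ s.rung c) ∧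
      (s.rung c → s.rail (c - 1) j ∨ s.rail c j)

end Pool.Agent.Q240.GW
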