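import Pool.Agent.Q240.GW.Gap

set_option autoImplicit false

namespace Pool.Agent.Q240.GW

variable {L R : ℤ} {s : St}

open Classical in
/-- positive part of the column, lowered by one at the origin `(0, false)` -/
noncomputable def Fp (s : St) : ℝ := max (s.x : ℝ) 0 - (if s.x = 0 ∧ s.i = false then 1 else 0)

open Classical in
/-- one if `p` fails -/
noncomputable def u (p : Prop) : ℝ := if p then 0 else 1

lemma u_true {p : Prop} (hp : p) : u p = 0 := by simp [u, hp]
lemma u_false {p : Prop} (hp : ¬ p) : u p = 1 := by simp [u, hp]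
lemma u_nonneg (p : Prop) : 0 ≤ u p := by unfold u; split_ifs <;> norm_num

/-- number of fresh rail edges in the gaps `0, …, L - 1` -/
noncomputable def Uo (L : ℤ) (rl : ℤ → Bool → Prop) : ℝ :=
  ∑ m ∈ Finset.Ico 0 L, (u (rl m true) + u (rl m false))

lemma Uo_nonneg (L : ℤ) (rl : ℤ → Bool → Prop) : 0 ≤ Uo L rl :=
  Finset.sum_nonneg fun _ _ => add_nonneg (u_nonneg _) (u_nonneg _)

/-- the supermartingale -/
noncomputable def Psi (L R : ℤ) (s : St) : ℝ :=
  Fp s + Uo L s.rail + ∑ m ∈ Finset.Ico L R, G m s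

lemma Uo_congr {rl rl' : ℤ → Bool → Prop} (h : ∀ m j, rl m j ↔ rl' m j) : Uo L rl = Uo L rl' := by
  have : rl = rl' := by
    funext m j; exact propext (h m j)
  rw [this]

lemma Uo_add {rl : ℤ → Bool → Prop} {k : ℤ} {i : Bool} (hk : ¬ rl k i) :
    Uo L (fun m j => rl m j ∨ (m = k ∧ j = i)) = Uo L rl - (if 0 ≤ k ∧ k < L then 1 else 0) := by
  unfold Uo
  have e : ∀ m ∈ Finset.Ico 0 L,
      (u (rl m true ∨ (m = k ∧ true = i)) + u (rl m false ∨ (m = k ∧ false = i))) =
      (u (rl m true) + u (rl m false)) - (if m = k then 1 else 0) := by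
    intro m _
    by_cases hmk : m = k
    · subst hmk
      cases i
      · have e1 : (rl m true ∨ (m = m ∧ true = false)) ↔ rl m true := by tauto
        rw [propext e1, u_true (Or.inr ⟨rfl, rfl⟩), u_false hk]
        simp
      · have e1 : (rl m false ∨ (m = m ∧ false = true)) ↔ rl m false := by tauto
        rw [propext e1, u_true (Or.inr ⟨rfl, rfl⟩), u_false hk]
        simp
    · simp [hmk]
  refine (Finset.sum_congr rfl e).trans ?_
  rw [Finset.sum_sub_distrib, Finset.sum_ite_eq']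
  simp only [Finset.mem_Ico]

lemma Uo_r (hk : ¬ s.rail s.x s.i) :
    Uo L s.r.rail = Uo L s.rail - (if 0 ≤ s.x ∧ s.x < L then 1 else 0) := Uo_add hk

lemma Uo_l (hk : ¬ s.rail (s.x - 1) s.i) :
    Uo L s.l.rail = Uo L s.rail - (if 0 ≤ s.x - 1 ∧ s.x - 1 < L then 1 else 0) := Uo_add hk

lemma Fp_full (ho : ¬ (s.x = 0 ∧ s.i = false)) : (Fp s.r + Fp s.l + Fp s.c) / 3 ≤ Fp s := by
  unfold Fp
  show (max ((s.x + 1 : ℤ) : ℝ) 0 - (if s.x + 1 = 0 ∧ s.i = false then 1 else 0) +
    (max ((s.x - 1 : ℤ) : ℝ) 0 - (if s.x - 1 = 0 ∧ s.i = false then 1 else 0)) +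
    (max (s.x : ℝ) 0 - (if s.x = 0 ∧ (!s.i) = false then 1 else 0))) / 3 ≤
    max (s.x : ℝ) 0 - (if s.x = 0 ∧ s.i = false then 1 else 0)
  rw [if_neg ho]
  push_cast
  rcases lt_trichotomy s.x 0 with hx | hx | hx
  · have h1 : (s.x : ℝ) + 1 ≤ 0 := by exact_mod_cast hx
    rw [max_eq_right h1, max_eq_right (by linarith), max_eq_right (by linarith)]
    split_ifs <;> norm_num
  · have hi : s.i = true := by
      cases hi : s.i
      · exact absurd ⟨hx, hi⟩ ho
      · rfl
    rw [hx, hi]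
    norm_num
  · have h1 : (1 : ℝ) ≤ s.x := by exact_mod_cast hx
    rw [max_eq_left (by linarith), max_eq_left (by linarith), max_eq_left (by linarith)]
    split_ifs <;> linarith

lemma Fp_r (hL : 0 ≤ L) (hR : s.x < R) (ho : ¬ (s.x = 0 ∧ s.i = false)) :
    Fp s.r - Fp s - (if 0 ≤ s.x ∧ s.x < L then 1 else 0) ≤ (if L ≤ s.x ∧ s.x < R then 1 else 0) := by
  unfold Fp
  show max ((s.x + 1 : ℤ) : ℝ) 0 - (if s.x + 1 = 0 ∧ s.i = false then 1 else 0) -
    (max (s.x : ℝ) 0 - (if s.x = 0 ∧ s.i = false then 1 else 0)) - _ ≤ _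
  rw [if_neg ho]
  push_cast
  have h0 : (0 : ℝ) ≤ (if s.x + 1 = 0 ∧ s.i = false then 1 else 0) := by split_ifs <;> norm_num
  rcases lt_or_ge s.x 0 with hx | hx
  · have h1 : (s.x : ℝ) + 1 ≤ 0 := by exact_mod_cast hx
    rw [max_eq_right h1, max_eq_right (by linarith), if_neg (show ¬ (0 ≤ s.x ∧ s.x < L) by omega),
      if_neg (show ¬ (L ≤ s.x ∧ s.x < R) by omega)]
    linarith
  · have h1 : (0 : ℝ) ≤ s.x := by exact_mod_cast hx
    rw [max_eq_left (by linarith), max_eq_left (by linarith)]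
    rcases lt_or_ge s.x L with hx2 | hx2
    · rw [if_pos (show 0 ≤ s.x ∧ s.x < L from ⟨hx, hx2⟩), if_neg (show ¬ (L ≤ s.x ∧ s.x < R) by omega)]
      linarith
    · rw [if_neg (show ¬ (0 ≤ s.x ∧ s.x < L) by omega), if_pos (show L ≤ s.x ∧ s.x < R from ⟨hx2, hR⟩)]
      linarith

lemma Fp_l (hL : 0 ≤ L) (ho : ¬ (s.x = 0 ∧ s.i = false)) :
    Fp s.l - Fp s - (if 0 ≤ s.x - 1 ∧ s.x - 1 < L then 1 else 0) ≤
      -(if L ≤ s.x - 1 ∧ s.x - 1 < R then 1 else 0) := by
  unfold Fp
  show max ((s.x - 1 : ℤ) : ℝ) 0 - (if s.x - 1 = 0 ∧ s.i = false then 1 else 0) -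
    (max (s.x : ℝ) 0 - (if s.x = 0 ∧ s.i = false then 1 else 0)) - _ ≤ _
  rw [if_neg ho]
  push_cast
  have h0 : (0 : ℝ) ≤ (if s.x - 1 = 0 ∧ s.i = false then 1 else 0) := by split_ifs <;> norm_num
  have h2 : (0 : ℝ) ≤ (if 0 ≤ s.x - 1 ∧ s.x - 1 < L then 1 else 0) := by split_ifs <;> norm_num
  rcases lt_or_ge 0 s.x with hx | hx
  · have h1 : (1 : ℝ) ≤ s.x := by exact_mod_cast hx
    rw [max_eq_left (by linarith), max_eq_left (by linarith)]
    have h3 : (if L ≤ s.x - 1 ∧ s.x - 1 < R then (1 : ℝ) else 0) ≤ 1 := by split_ifs <;> norm_num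
    linarith
  · have h1 : (s.x : ℝ) ≤ 0 := by exact_mod_cast hx
    rw [max_eq_right (by linarith), max_eq_right (by linarith), if_neg (show ¬ (L ≤ s.x - 1 ∧ s.x - 1 < R) by omega)]
    linarith

lemma Fp_c (ho : ¬ (s.x = 0 ∧ s.i = false)) : Fp s.c - Fp s ≤ 0 := by
  unfold Fp
  show max (s.x : ℝ) 0 - (if s.x = 0 ∧ (!s.i) = false then 1 else 0) -
    (max (s.x : ℝ) 0 - (if s.x = 0 ∧ s.i = false then 1 else 0)) ≤ 0
  rw [if_neg ho]
  have h0 : (0 : ℝ) ≤ (if s.x = 0 ∧ (!s.i) = false then 1 else 0) := by split_ifs <;> norm_num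
  linarith

/-- `Psi` is a supermartingale away from the origin and to the left of the column `R` -/
theorem super (hI : Inv L s) (hL : 0 ≤ L) (hR : s.x < R) (ho : ¬ (s.x = 0 ∧ s.i = false)) :
    avg s (Psi L R) ≤ Psi L R s := by
  unfold avg
  by_cases hf : s.full
  · rw [if_pos hf]
    have h1 := Fp_full ho
    have u1 : Uo L s.r.rail = Uo L s.rail := Uo_congr fun m j => by
      show (s.rail m j ∨ (m = s.x ∧ j = s.i)) ↔ _
      constructor
      · rintro (h | ⟨rfl, rfl⟩)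
        · exact h
        · exact hf.1
      · exact Or.inl
    have u2 : Uo L s.l.rail = Uo L s.rail := Uo_congr fun m j => by
      show (s.rail m j ∨ (m = s.x - 1 ∧ j = s.i)) ↔ _
      constructor
      · rintro (h | ⟨rfl, rfl⟩)
        · exact h
        · exact hf.2.1
      · exact Or.inl
    have u3 : Uo L s.c.rail = Uo L s.rail := rfl
    have g1 : (∑ m ∈ Finset.Ico L R, G m s.r + ∑ m ∈ Finset.Ico L R, G m s.l +
        ∑ m ∈ Finset.Ico L R, G m s.c) / 3 ≤ ∑ m ∈ Finset.Ico L R, G m s := by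
      rw [← Finset.sum_add_distrib, ← Finset.sum_add_distrib, Finset.sum_div]
      refine Finset.sum_le_sum fun m hm => gap_full hI (Finset.mem_Ico.mp hm).1 hf
    unfold Psi
    rw [u1, u2, u3]
    linarith
  · rw [if_neg hf, div_le_iff₀ (tot_pos hf)]
    have g1 : ∑ m ∈ Finset.Ico L R, (s.fr * (G m s.r - G m s + (if m = s.x then 1 else 0)) +
      s.fl * (G m s.l - G m s - (if m = s.x - 1 then 1 else 0)) + s.fc * (G m s.c - G m s)) ≤ 0 :=
      Finset.sum_nonpos fun m hm => gap_part hI (Finset.mem_Ico.mp hm).1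
    rw [Finset.sum_add_distrib, Finset.sum_add_distrib, ← Finset.mul_sum, ← Finset.mul_sum,
      ← Finset.mul_sum, Finset.sum_add_distrib, Finset.sum_sub_distrib, Finset.sum_sub_distrib,
      Finset.sum_sub_distrib, Finset.sum_sub_distrib, Finset.sum_ite_eq', Finset.sum_ite_eq'] at g1
    simp only [Finset.mem_Ico] at g1
    set A := ∑ m ∈ Finset.Ico L R, G m s
    set B := ∑ m ∈ Finset.Ico L R, G m s.r
    set C := ∑ m ∈ Finset.Ico L R, G m s.l
    set D := ∑ m ∈ Finset.Ico L R, G m s.c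
    have k1 : s.fr * (Psi L R s.r - Psi L R s) ≤
        s.fr * (B - A + (if L ≤ s.x ∧ s.x < R then 1 else 0)) := by
      by_cases hp : s.rail s.x s.i
      · have : s.fr = 0 := by unfold St.fr; rw [if_pos hp]
        rw [this]; simp
      · refine mul_le_mul_of_nonneg_left ?_ (fr_nonneg s)
        have := Fp_r (L := L) hL hR ho
        unfold Psi
        rw [Uo_r hp]
        linarith
    have k2 : s.fl * (Psi L R s.l - Psi L R s) ≤
        s.fl * (C - A - (if L ≤ s.x - 1 ∧ s.x - 1 < R then 1 else 0)) := by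
      by_cases hp : s.rail (s.x - 1) s.i
      · have : s.fl = 0 := by unfold St.fl; rw [if_pos hp]
        rw [this]; simp
      · refine mul_le_mul_of_nonneg_left ?_ (fl_nonneg s)
        have := Fp_l (L := L) (R := R) hL ho
        unfold Psi
        rw [Uo_l hp]
        linarith
    have k3 : s.fc * (Psi L R s.c - Psi L R s) ≤ s.fc * (D - A) := by
      refine mul_le_mul_of_nonneg_left ?_ (fc_nonneg s)
      have := Fp_c (s := s) ho
      unfold Psi
      have u3 : Uo L s.c.rail = Uo L s.rail := rfl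
      rw [u3]
      linarith
    nlinarith

end Pool.Agent.Q240.GW
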